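import Mathlib

set_option autoImplicit false

namespace Pool.Agent.Lib.MP_7018e1_co

open Finset

def Chain (Act : ℕ → Finset ℕ) : ℕ → ℕ → ℕ → Prop
  | 0, a, e => a = e
  | r + 1, a, e => ∃ a', a ≤ a' ∧ a' ≤ e ∧ (a = a' ∨ ∃ s, a' = s + 1 ∧ a ∈ Act s) ∧ Chain Act r a' e

theorem Chain.refl (Act : ℕ → Finset ℕ) (r a : ℕ) : Chain Act r a a := by
  induction r with
  | zero => rfl
  | succ r ih => exact ⟨a, le_rfl, le_rfl, Or.inl rfl, ih⟩

theorem Chain.le {Act : ℕ → Finset ℕ} {r a e : ℕ} (h : Chain Act r a e) : a ≤ e := by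
  cases r with
  | zero => exact le_of_eq h
  | succ r =>
    obtain ⟨a', h1, h2, -⟩ := h
    omega

theorem Chain.trans {Act : ℕ → Finset ℕ} {r r' a e e' : ℕ} (h : Chain Act r a e)
    (h' : Chain Act r' e e') : Chain Act (r' + r) a e' := by
  induction r generalizing a with
  | zero =>
    have : a = e := h
    subst this
    exact h'
  | succ r ih =>
    obtain ⟨a', h1, h2, h3, h4⟩ := h
    exact ⟨a', h1, h2.trans h'.le, h3, ih h4⟩

structure Sched (c r x0 : ℕ) where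
  X : ℕ → ℕ
  Act : ℕ → Finset ℕ
  old : ℕ → ℕ
  act_le : ∀ t a, a ∈ Act t → x0 ^ c ≤ a ∧ a ≤ t ∧ X a = X t
  act_succ : ∀ t a, a ∈ Act (t + 1) → a = t + 1 ∨ a ∈ Act t
  act_card : ∀ t, (Act t).card ≤ 2 * c * X t
  X_low : ∀ t, x0 ^ c ≤ t → X t ^ c ≤ t
  X_up : ∀ t, x0 ^ c ≤ t → t < X t ^ (2 * c)
  X_ge : ∀ t, x0 ≤ X t
  old_le : ∀ t, x0 ^ c ≤ t → x0 ^ c ≤ old t ∧ old t ≤ t
  old_small : ∀ t, x0 ^ c ≤ t → old t = x0 ^ c ∨ ∃ y, 2 ≤ y ∧ old t = y ^ c ∧ y ^ r ≤ X t
  chain : ∀ t, x0 ^ c ≤ t → ∀ τ, old t ≤ τ → τ ≤ t + 1 → Chain Act (2 * c * (r + 1)) τ (t + 1)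

section Build

variable (c x0 : ℕ)

def xs (j : ℕ) : ℕ := x0 ^ (2 ^ j)

def st (j : ℕ) : ℕ := xs x0 j ^ c

def ep (t : ℕ) : ℕ := Nat.log 2 (Nat.log (x0 ^ c) t)

theorem st_eq (j : ℕ) : st c x0 j = (x0 ^ c) ^ (2 ^ j) := by
  unfold st xs
  rw [← pow_mul, ← pow_mul, mul_comm]

theorem st_zero : st c x0 0 = x0 ^ c := by simp [st_eq]

theorem st_succ (j : ℕ) : st c x0 (j + 1) = xs x0 j ^ (2 * c) := by
  unfold st xs
  rw [← pow_mul, ← pow_mul, pow_succ, mul_assoc]

variable {c x0}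

theorem st_mono (hc : 0 < c) (hx : 2 ≤ x0) : StrictMono (st c x0) := by
  intro i j hij
  rw [st_eq, st_eq]
  exact Nat.pow_lt_pow_right (Nat.one_lt_pow hc.ne' hx) (Nat.pow_lt_pow_right (by norm_num) hij)

theorem ep_spec (hc : 0 < c) (hx : 2 ≤ x0) {t : ℕ} (ht : x0 ^ c ≤ t) :
    st c x0 (ep c x0 t) ≤ t ∧ t < st c x0 (ep c x0 t + 1) := by
  have hb : 1 < x0 ^ c := Nat.one_lt_pow hc.ne' hx
  have ht0 : t ≠ 0 := by omega
  have hy : 0 < Nat.log (x0 ^ c) t := Nat.log_pos hb ht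
  rw [st_eq, st_eq]
  constructor
  · exact le_trans (Nat.pow_le_pow_right (by omega) (Nat.pow_log_le_self 2 hy.ne'))
      (Nat.pow_log_le_self _ ht0)
  · exact lt_of_lt_of_le (Nat.lt_pow_succ_log_self hb t)
      (Nat.pow_le_pow_right (by omega) (Nat.lt_pow_succ_log_self (by norm_num) _))

theorem ep_eq (hc : 0 < c) (hx : 2 ≤ x0) {t j : ℕ} (h1 : st c x0 j ≤ t) (h2 : t < st c x0 (j + 1)) :
    ep c x0 t = j := by
  have h0 : x0 ^ c ≤ t := by
    rw [← st_zero]
    exact ((st_mono hc hx).monotone (Nat.zero_le j)).trans h1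
  obtain ⟨h3, h4⟩ := ep_spec hc hx h0
  have h5 := (st_mono hc hx).lt_iff_lt.mp (lt_of_le_of_lt h1 h4)
  have h6 := (st_mono hc hx).lt_iff_lt.mp (lt_of_le_of_lt h3 h2)
  omega

theorem xs_ge (hx : 2 ≤ x0) (j : ℕ) : x0 ≤ xs x0 j :=
  Nat.le_self_pow (by positivity) x0

variable (c x0)

open Classical in
noncomputable def act (t : ℕ) : Finset ℕ :=
  (range (t + 1)).filter (fun a => x0 ^ c ≤ t ∧ st c x0 (ep c x0 t) ≤ a ∧ ∃ k, k < 2 * c ∧
    xs x0 (ep c x0 t) ^ k ∣ a ∧ a / xs x0 (ep c x0 t) ^ (k + 1) = t / xs x0 (ep c x0 t) ^ (k + 1))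

variable {c x0}

theorem chain_epoch (hc : 0 < c) (hx : 2 ≤ x0) (j d : ℕ) : ∀ k τ e, k + d = 2 * c →
    xs x0 j ^ k ∣ τ → st c x0 j ≤ τ → τ ≤ e → e ≤ st c x0 (j + 1) → Chain (act c x0) d τ e := by
  have hx2 : 2 ≤ xs x0 j := hx.trans (xs_ge hx j)
  have hst : 0 < st c x0 j := by unfold st; positivity
  induction d with
  | zero =>
    intro k τ e hk hd h1 h2 h3
    have hk' : k = 2 * c := by omega
    rw [st_succ, ← hk'] at h3
    have := Nat.le_of_dvd (by omega) hd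
    exact le_antisymm h2 (by omega)
  | succ d ih =>
    intro k τ e hk hd h1 h2 h3
    rcases eq_or_lt_of_le h2 with rfl | h2
    · exact Chain.refl _ _ _
    have hy : 0 < xs x0 j ^ (k + 1) := by positivity
    set y := xs x0 j ^ (k + 1) with hydef
    have hlt : τ < (τ / y + 1) * y := by
      rw [mul_comm]
      exact Nat.lt_mul_div_succ τ hy
    have hmem : ∀ u, τ ≤ u → u < e → u < (τ / y + 1) * y → τ ∈ act c x0 u := by
      intro u hu1 hu2 hu3
      have hep : ep c x0 u = j := ep_eq hc hx (h1.trans hu1) (by omega)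
      have h0 : x0 ^ c ≤ u := by
        rw [← st_zero]
        exact (((st_mono hc hx).monotone (Nat.zero_le j)).trans h1).trans hu1
      unfold act
      rw [mem_filter, hep]
      refine ⟨mem_range.mpr (by omega), h0, h1, k, by omega, hd, ?_⟩
      apply le_antisymm (Nat.div_le_div_right hu1)
      exact Nat.lt_succ_iff.mp ((Nat.div_lt_iff_lt_mul hy).mpr hu3)
    by_cases hcase : e ≤ (τ / y + 1) * y
    · refine ⟨e, h2.le, le_rfl, Or.inr ⟨e - 1, by omega, hmem _ (by omega) (by omega) (by omega)⟩,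
        Chain.refl _ _ _⟩
    · refine ⟨(τ / y + 1) * y, hlt.le, by omega,
        Or.inr ⟨(τ / y + 1) * y - 1, by omega, hmem _ (by omega) (by omega) (by omega)⟩, ?_⟩
      exact ih (k + 1) _ e (by omega) (Dvd.intro_left _ rfl) (by omega) (by omega) h3

theorem chain_many (hc : 0 < c) (hx : 2 ≤ x0) (d : ℕ) : ∀ j τ e, st c x0 j ≤ τ → τ ≤ e →
    e ≤ st c x0 (j + d) → Chain (act c x0) (2 * c * d) τ e := by
  induction d with
  | zero =>
    intro j τ e h1 h2 h3
    exact le_antisymm h2 (h3.trans h1)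
  | succ d ih =>
    intro j τ e h1 h2 h3
    rw [show j + (d + 1) = (j + 1) + d by omega] at h3
    rw [mul_add, mul_one]
    by_cases hτ : st c x0 (j + 1) ≤ τ
    · exact (Chain.refl _ _ _).trans (ih (j + 1) τ e hτ h2 h3)
    by_cases he : e ≤ st c x0 (j + 1)
    · exact (chain_epoch hc hx j (2 * c) 0 τ e (by omega) (by simp) h1 h2 he).trans
        (Chain.refl _ _ _)
    · exact (chain_epoch hc hx j (2 * c) 0 τ _ (by omega) (by simp) h1 (by omega) le_rfl).trans
        (ih (j + 1) _ e le_rfl (by omega) h3)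

theorem act_card (hx : 2 ≤ x0) (t : ℕ) : (act c x0 t).card ≤ 2 * c * xs x0 (ep c x0 t) := by
  set x := xs x0 (ep c x0 t) with hxdef
  have hx2 : 2 ≤ x := hx.trans (xs_ge hx _)
  have hsub : act c x0 t ⊆ (range (2 * c)).biUnion
      (fun k => (range x).image (fun i => t / x ^ (k + 1) * x ^ (k + 1) + i * x ^ k)) := by
    intro a ha
    unfold act at ha
    obtain ⟨-, -, -, k, hk, ⟨u, hu⟩, he⟩ := mem_filter.mp ha
    rw [← hxdef] at hu he
    simp only [mem_biUnion, mem_range, mem_image]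
    refine ⟨k, hk, u % x, Nat.mod_lt _ (by omega), ?_⟩
    rw [← he, hu, pow_succ, Nat.mul_div_mul_left _ _ (by positivity)]
    conv_rhs => rw [← Nat.div_add_mod u x]
    ring
  refine (card_le_card hsub).trans ?_
  have := card_biUnion_le_card_mul (range (2 * c))
    (fun k => (range x).image (fun i => t / x ^ (k + 1) * x ^ (k + 1) + i * x ^ k)) x
    (fun k _ => card_image_le.trans (by simp))
  simpa using this

theorem exists_sched (r : ℕ) (hc : 0 < c) (hx : 2 ≤ x0) : Nonempty (Sched c r x0) := by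
  refine ⟨⟨fun t => xs x0 (ep c x0 t), act c x0, fun t => st c x0 (ep c x0 t - r),
    ?_, ?_, act_card hx, ?_, ?_, fun t => xs_ge hx _, ?_, ?_, ?_⟩⟩
  · intro t a ha
    unfold act at ha
    obtain ⟨h1, h2, h3, -⟩ := mem_filter.mp ha
    have h4 := mem_range.mp h1
    refine ⟨?_, by omega, ?_⟩
    · rw [← st_zero]
      exact ((st_mono hc hx).monotone (Nat.zero_le _)).trans h3
    · rw [ep_eq hc hx h3 (lt_of_le_of_lt (by omega) (ep_spec hc hx h2).2)]
  · intro t a ha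
    unfold act at ha ⊢
    obtain ⟨h1, h2, h3, k, hk, hd, he⟩ := mem_filter.mp ha
    have h4 := mem_range.mp h1
    by_cases hat : a = t + 1
    · exact Or.inl hat
    right
    have h5 : a ≤ t := by omega
    have hep : ep c x0 t = ep c x0 (t + 1) :=
      ep_eq hc hx (h3.trans h5) (lt_trans (by omega) (ep_spec hc hx h2).2)
    have h0 : x0 ^ c ≤ t := by
      rw [← st_zero]
      exact (((st_mono hc hx).monotone (Nat.zero_le _)).trans h3).trans h5
    rw [mem_filter, hep]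
    refine ⟨mem_range.mpr (by omega), h0, h3, k, hk, hd, ?_⟩
    apply le_antisymm (Nat.div_le_div_right h5)
    rw [he]
    exact Nat.div_le_div_right (by omega)
  · intro t ht
    exact (ep_spec hc hx ht).1
  · intro t ht
    have := (ep_spec hc hx ht).2
    rwa [st_succ] at this
  · intro t ht
    constructor
    · rw [← st_zero]
      exact (st_mono hc hx).monotone (Nat.zero_le _)
    · exact ((st_mono hc hx).monotone (Nat.sub_le _ _)).trans (ep_spec hc hx ht).1
  · intro t _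
    by_cases h : ep c x0 t ≤ r
    · left
      simp only [Nat.sub_eq_zero_of_le h, st_zero]
    · right
      refine ⟨xs x0 (ep c x0 t - r), hx.trans (xs_ge hx _), rfl, ?_⟩
      unfold xs
      rw [← pow_mul]
      apply Nat.pow_le_pow_right (by omega)
      have h1 : 2 ^ (ep c x0 t) = 2 ^ (ep c x0 t - r) * 2 ^ r := by
        rw [← pow_add]
        congr 1
        omega
      rw [h1]
      exact Nat.mul_le_mul_left _ Nat.lt_two_pow_self.le
  · intro t ht τ h1 h2
    apply chain_many hc hx (r + 1) _ τ (t + 1) h1 h2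
    exact le_trans (ep_spec hc hx ht).2 ((st_mono hc hx).monotone (by omega))

end Build

end Pool.Agent.Lib.MP_7018e1_co
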