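import Pool.Agent.Lib.MP_7018e1_co.Maker
import Pool.Agent.Lib.MP_7018e1_co.Sched

set_option autoImplicit false

namespace Pool.Agent.Lib.MP_7018e1_co

open Finset

structure Par where
  A : ℕ
  q : ℕ
  w : ℕ
  x0 : ℕ
  n : ℕ
  J : ℕ
  sch : Sched (7 * q) (3 * (7 * q) * (A + 1) + 1) x0
  hq : 0 < q
  hn : 0 < n
  hnJ : n ≤ w * J
  hJ : (x0 ^ (7 * q)) ^ (A + 1) ≤ J
  hx1 : 2 * w + 2 ≤ x0
  hx2 : w ^ 2 ≤ x0
  hx3 : 2 * (7 * q) ≤ x0

def cC (A q : ℕ) : ℕ := 2 * (7 * q) + 4 + 10 * (2 * (7 * q) * (A + 1))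

def cE (A q : ℕ) : ℕ := 2 + 2 * (7 * q) * (3 * (7 * q) * (A + 1) + 1 + 1) * (2 * cC A q + 4)

namespace Par

variable (π : Par)

def t0 : ℕ := π.x0 ^ (7 * π.q)

theorem x0_two : 2 ≤ π.x0 := by
  have := π.hx1
  omega

theorem X_two (a : ℕ) : 2 ≤ π.sch.X a := π.x0_two.trans (π.sch.X_ge a)

theorem t0_two : 2 ≤ π.t0 := by
  have := π.hq
  exact π.x0_two.trans (Nat.le_self_pow (by omega) _)

theorem J_pos : 0 < π.J := by
  have := π.x0_two
  exact lt_of_lt_of_le (by positivity) π.hJ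

noncomputable def rho (a : ℕ) : ℝ := (π.sch.X a : ℝ) ^ ((π.J : ℝ)⁻¹)

theorem rho_gt (a : ℕ) : 1 < π.rho a := by
  have h1 : (1 : ℝ) < π.sch.X a := by exact_mod_cast π.X_two a
  have h2 : (0 : ℝ) < π.J := by exact_mod_cast π.J_pos
  exact Real.one_lt_rpow h1 (by positivity)

theorem rho_pow (a : ℕ) : π.rho a ^ π.J = π.sch.X a :=
  Real.rpow_inv_natCast_pow (by positivity) π.J_pos.ne'

theorem rho_k (a : ℕ) :
    2 * π.n * ((π.rho a - 1) * π.rho a ^ π.J) ≤ ((π.sch.X a ^ 3 : ℕ) : ℝ) := by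
  have h1 := one_add_mul_le_pow (a := π.rho a - 1) (by linarith [π.rho_gt a]) π.J
  rw [add_sub_cancel, π.rho_pow] at h1
  rw [π.rho_pow]
  have h2 : (π.n : ℝ) ≤ π.w * π.J := by exact_mod_cast π.hnJ
  have h3 : (2 * π.w : ℝ) ≤ π.sch.X a := by
    have := π.hx1
    have := π.sch.X_ge a
    exact_mod_cast (by omega : 2 * π.w ≤ π.sch.X a)
  have h4 : 0 ≤ π.rho a - 1 := by linarith [π.rho_gt a]
  have hx : (0 : ℝ) ≤ π.sch.X a := by positivity
  have hw : (0 : ℝ) ≤ π.w := by positivity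
  have h5 : (π.n : ℝ) * (π.rho a - 1) ≤ π.w * π.sch.X a := by
    have := mul_le_mul_of_nonneg_right h2 h4
    have h6 : (π.J : ℝ) * (π.rho a - 1) ≤ π.sch.X a := by linarith
    have := mul_le_mul_of_nonneg_left h6 hw
    nlinarith
  have h6 := mul_le_mul_of_nonneg_right h5 hx
  have h7 := mul_le_mul_of_nonneg_right h3 (mul_nonneg hx hx)
  push_cast
  nlinarith

variable {P L : Type} [DecidableEq P] (g : Geo P L)

noncomputable def game (H : Finset P) (a : ℕ) : Game g where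
  n := π.n
  h := π.J
  ρ := π.rho a
  G := g.lines H
  R := (g.exists_rel (g.lines H)).choose
  O := (g.exists_obj (g.lines H) (g.exists_rel (g.lines H)).choose).choose
  H := H
  hn := π.hn
  hh := π.J_pos
  hρ := (π.rho_gt a).le
  hR := (g.exists_rel (g.lines H)).choose_spec.1
  hO := (g.exists_obj (g.lines H) (g.exists_rel (g.lines H)).choose).choose_spec.1

omit [DecidableEq P] in
theorem game_card (H : Finset P) (a : ℕ) : (π.game g H a).O.card ≤ H.card ^ 10 := by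
  have h1 := g.card_lines H
  have h2 := (g.exists_rel (g.lines H)).choose_spec.2
  have h3 := (g.exists_obj (g.lines H) (g.exists_rel (g.lines H)).choose).choose_spec.2
  refine h3.trans ?_
  calc _ ≤ H.card ^ 2 * ((H.card ^ 2) ^ 2) ^ 2 :=
        Nat.mul_le_mul h1 (Nat.pow_le_pow_left (h2.trans (Nat.pow_le_pow_left h1 2)) 2)
    _ = H.card ^ 10 := by ring

def NN (a : ℕ) : ℕ := π.sch.X a ^ (10 * (2 * (7 * π.q) * (π.A + 1)))

def Ls : ℕ := 2 * (π.J * (cC π.A π.q + 1) + π.J)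

structure Inv (t : ℕ) (H : ℕ → Finset P) (B : Finset P) : Prop where
  mono : ∀ s s', s ≤ s' → s' ≤ t → H s ⊆ H s'
  card : ∀ s, s ≤ t → (H s).card ≤ s ^ (π.A + 1)
  disj : Disjoint (H t) B
  cap : ∀ s, π.t0 ≤ s → s < t → ∀ o, g.LF π.n B o → g.cnt (H (s + 1) \ H s) o ≤ π.J
  cnt : ∀ s, s < t → ∀ a ∈ π.sch.Act s, ∀ o : Seg L, g.Two (H a) o.1 → g.LF π.n B o →
    g.cnt (H (s + 1) \ H a) o ≤ π.Ls
  old : ∀ s, s + 1 = t → π.t0 ≤ s → ∀ o, g.LF π.n B o → g.cnt (H (π.sch.old s)) o ≤ π.J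
  game : ∀ a ∈ π.sch.Act t, (π.game g (H a) a).GInv (π.sch.X a ^ 3) (H t) B
    (((t - a : ℕ) : ℝ) * (((π.sch.X a ^ 3 : ℕ) : ℝ) * (π.NN a + 1)))

theorem inv_init : π.Inv g 1 (fun _ => ∅) ∅ := by
  have h2 := π.t0_two
  refine ⟨fun _ _ _ _ => subset_rfl, by simp, by simp, ?_, ?_, ?_, ?_⟩
  · intro s h1 h3
    omega
  · intro s _ a _ o _ _
    simp [Geo.cnt_empty]
  · intro s _ _ o _
    simp [Geo.cnt_empty]
  · intro a ha
    have := π.sch.act_le 1 a ha
    unfold t0 at h2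
    omega

variable {π g}

theorem Inv.chain {t : ℕ} {H : ℕ → Finset P} {B : Finset P} (hI : π.Inv g t H B) (o : Seg L)
    (hlf : g.LF π.n B o) (r : ℕ) : ∀ a e, e ≤ t → Chain π.sch.Act r a e → g.Two (H a) o.1 →
    g.cnt (H e) o ≤ g.cnt (H a) o + r * π.Ls := by
  induction r with
  | zero =>
    intro a e _ hc _
    have : a = e := hc
    simp [this]
  | succ r ih =>
    rintro a e he ⟨a', h1, h2, h3, h4⟩ ht
    have h5 := ih a' e he h4 (ht.mono g (hI.mono a a' h1 (h2.trans he)))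
    have h6 : g.cnt (H a') o ≤ g.cnt (H a) o + π.Ls := by
      rcases h3 with rfl | ⟨s, rfl, hs⟩
      · omega
      · have h7 := hI.cnt s (by omega) a hs o ht hlf
        have h8 := g.cnt_le_add (S := H (s + 1)) (S1 := H a) (S2 := H (s + 1) \ H a)
          (by rw [union_sdiff_self_eq_union]; exact subset_union_right) o
        omega
    rw [add_mul]
    omega

theorem Inv.light {t : ℕ} {H : ℕ → Finset P} {B : Finset P} (hI : π.Inv g t H B) (o : Seg L)
    (hlf : g.LF π.n B o) : g.cnt (H t) o ≤ cE π.A π.q * π.J := by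
  classical
  have hJ := π.J_pos
  have hE : cE π.A π.q * π.J =
      2 * π.J + 2 * (7 * π.q) * (3 * (7 * π.q) * (π.A + 1) + 1 + 1) * π.Ls := by
    unfold cE Ls
    ring
  rw [hE]
  by_cases ht : t ≤ π.t0
  · have h1 := (g.cnt_le_card (H t) o).trans (hI.card t le_rfl)
    have h2 := (Nat.pow_le_pow_left ht (π.A + 1)).trans π.hJ
    omega
  obtain ⟨s, rfl⟩ : ∃ s, t = s + 1 := ⟨t - 1, by omega⟩
  have hs : π.t0 ≤ s := by omega
  by_cases h2 : g.Two (H (s + 1)) o.1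
  swap
  · have := g.cnt_le_one h2
    omega
  obtain ⟨ho1, ho2⟩ := π.sch.old_le s hs
  have hex : ∃ τ, π.sch.old s ≤ τ ∧ g.Two (H τ) o.1 := ⟨s + 1, by omega, h2⟩
  have h3 := Nat.find_spec hex
  have h4 : Nat.find hex ≤ s + 1 := Nat.find_min' hex ⟨by omega, h2⟩
  have h5 := hI.chain o hlf _ _ _ le_rfl (π.sch.chain s hs _ h3.1 h4) h3.2
  have h6 : g.cnt (H (Nat.find hex)) o ≤ 2 * π.J := by
    rcases eq_or_lt_of_le h3.1 with h | h
    · have := hI.old s rfl hs o hlf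
      rw [← h]
      omega
    · obtain ⟨τ, hτ⟩ : ∃ τ, Nat.find hex = τ + 1 := ⟨Nat.find hex - 1, by omega⟩
      have h7 := Nat.find_min hex (show τ < Nat.find hex by omega)
      have h8 := g.cnt_le_one (S := H τ) (o := o) (fun hc => h7 ⟨by omega, hc⟩)
      have h9 := hI.cap τ (by unfold t0; omega) (by omega) o hlf
      have h10 := g.cnt_le_add (S := H (τ + 1)) (S1 := H τ) (S2 := H (τ + 1) \ H τ)
          (by rw [union_sdiff_self_eq_union]; exact subset_union_right) o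
      rw [hτ]
      omega
  omega

theorem Inv.noWin {t : ℕ} {H : ℕ → Finset P} {B : Finset P} (hI : π.Inv g t H B) (X : Finset P)
    (hX : X.card + cE π.A π.q * π.J < π.n) : g.NoWin π.n (H t ∪ X) B := by
  intro o ho
  by_cases hl : o.2.1 + π.n ≤ o.2.2 + 1
  · have h1 := hI.light o ⟨ho, hl⟩
    have h2 := g.cnt_le_add (S := H t ∪ X) subset_rfl o
    have h3 := g.cnt_le_card X o
    omega
  · have h1 : g.cnt (H t ∪ X) o ≤ (Icc o.2.1 o.2.2).card := card_filter_le _ _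
    rw [Int.card_Icc] at h1
    have := π.hn
    omega

end Par

end Pool.Agent.Lib.MP_7018e1_co
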