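import Mathlib

set_option autoImplicit false

namespace Pool.Agent.Lib.MP_7018e1_co

/-- A lattice point viewed as a point of the real plane. -/
def emb (p : ℤ × ℤ) : ℝ × ℝ := ((p.1 : ℝ), (p.2 : ℝ))

/-- Maker (owning `M`) has a winning line segment against Breaker (owning `B`): `n` Maker points
on one straight segment whose ends `a`, `c` are among them, with no Breaker point on it. -/
def Win (n : ℕ) (M B : Finset (ℤ × ℤ)) : Prop :=
  ∃ S : Finset (ℤ × ℤ), S ⊆ M ∧ S.card = n ∧ ∃ a ∈ S, ∃ c ∈ S,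
    (∀ p ∈ S, emb p ∈ segment ℝ (emb a) (emb c)) ∧
    (∀ q ∈ B, emb q ∉ segment ℝ (emb a) (emb c))

/-- `CanForce m b n k t M B`: from the position `(M, B)` at the start of timestep `t`, Maker can
force a winning line segment within the next `k` timesteps. -/
def CanForce (m b : ℕ → ℕ) (n : ℕ) : ℕ → ℕ → Finset (ℤ × ℤ) → Finset (ℤ × ℤ) → Prop
  | 0, _, _, _ => False
  | k + 1, t, M, B => ∃ X : Finset (ℤ × ℤ), Disjoint X (M ∪ B) ∧ X.card = m t ∧
      (Win n (M ∪ X) B ∨ ∀ Y : Finset (ℤ × ℤ), Disjoint Y (M ∪ X ∪ B) → Y.card = b t →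
        CanForce m b n k (t + 1) (M ∪ X) (B ∪ Y))

/-- Maker can force a winning line segment by timestep `T` (the game starts at timestep 1). -/
def Forces (m b : ℕ → ℕ) (n T : ℕ) : Prop := CanForce m b n T 1 ∅ ∅

/-- The game for the pair `m, b` is a Maker win: for some `ε > 0` and all large `n`, the earliest
forcing time `τ` exists and `m τ < (1 - ε) n`. -/
def MakerWin (m b : ℕ → ℕ) : Prop :=
  ∃ ε : ℝ, 0 < ε ∧ ∀ᶠ n : ℕ in Filter.atTop,
    ∃ τ : ℕ, IsLeast {T | Forces m b n T} τ ∧ (m τ : ℝ) < (1 - ε) * n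

/-- The function `t ↦ ⌊t ^ γ⌋`. -/
noncomputable def powFloor (γ : ℝ) (t : ℕ) : ℕ := ⌊(t : ℝ) ^ γ⌋₊

end Pool.Agent.Lib.MP_7018e1_co
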