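import Pool.Agent.Lib.MP_7018e1_co.Shatter

set_option autoImplicit false

namespace Pool.Agent.Lib.MP_7018e1_co

open Finset

structure Geo (P L : Type) where
  f : L → ℤ → P
  inj : ∀ l, Function.Injective (f l)
  uniq : ∀ l l' i j i' j', i ≠ j → f l i = f l' i' → f l j = f l' j' → l = l'

abbrev Seg (L : Type) := L × ℤ × ℤ

variable {P L : Type} [DecidableEq P] (g : Geo P L)

namespace Geo

noncomputable def cnt (S : Finset P) (o : Seg L) : ℕ :=
  ((Icc o.2.1 o.2.2).filter (fun i => g.f o.1 i ∈ S)).card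

def Free (B : Finset P) (o : Seg L) : Prop := ∀ i, o.2.1 ≤ i → i ≤ o.2.2 → g.f o.1 i ∉ B

def LF (n : ℕ) (B : Finset P) (o : Seg L) : Prop := g.Free B o ∧ o.2.1 + n ≤ o.2.2 + 1

def NoWin (n : ℕ) (M B : Finset P) : Prop := ∀ o, g.Free B o → g.cnt M o < n

def On (p : P) (o : Seg L) : Prop := ∃ i, o.2.1 ≤ i ∧ i ≤ o.2.2 ∧ g.f o.1 i = p

omit [DecidableEq P] in
theorem Free.mono {B B' : Finset P} {o : Seg L} (h : g.Free B' o) (hB : B ⊆ B') : g.Free B o :=
  fun i h1 h2 hc => h i h1 h2 (hB hc)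

omit [DecidableEq P] in
theorem LF.mono {n : ℕ} {B B' : Finset P} {o : Seg L} (h : g.LF n B' o) (hB : B ⊆ B') :
    g.LF n B o := ⟨h.1.mono g hB, h.2⟩

theorem NoWin.mono {n : ℕ} {M B B' : Finset P} (h : g.NoWin n M B) (hB : B ⊆ B') :
    g.NoWin n M B' := fun o ho => h o (ho.mono g hB)

theorem cnt_mono {S S' : Finset P} (h : S ⊆ S') (o : Seg L) : g.cnt S o ≤ g.cnt S' o := by
  apply card_le_card
  intro i hi
  rw [mem_filter] at hi ⊢
  exact ⟨hi.1, h hi.2⟩

theorem cnt_le_add {S S1 S2 : Finset P} (h : S ⊆ S1 ∪ S2) (o : Seg L) :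
    g.cnt S o ≤ g.cnt S1 o + g.cnt S2 o := by
  refine le_trans (card_le_card ?_) (card_union_le _ _)
  intro i hi
  simp only [mem_filter, mem_union] at hi ⊢
  rcases mem_union.mp (h hi.2) with h1 | h1
  · exact Or.inl ⟨hi.1, h1⟩
  · exact Or.inr ⟨hi.1, h1⟩

theorem cnt_sub (S : Finset P) {l : L} {lo hi lo' hi' : ℤ} (h1 : lo' ≤ lo) (h2 : hi ≤ hi') :
    g.cnt S (l, lo, hi) ≤ g.cnt S (l, lo', hi') := by
  apply card_le_card
  intro i hi
  simp only [mem_filter, mem_Icc] at hi ⊢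
  exact ⟨⟨by omega, by omega⟩, hi.2⟩

open Classical in
theorem cnt_le_filter (S : Finset P) (o : Seg L) :
    g.cnt S o ≤ (S.filter (fun p => g.On p o)).card := by
  apply card_le_card_of_injOn (g.f o.1)
  · intro i hi
    simp only [coe_filter, mem_Icc, Set.mem_ofPred_eq] at hi ⊢
    exact ⟨hi.2, i, hi.1.1, hi.1.2, rfl⟩
  · exact (g.inj o.1).injOn

theorem cnt_le_card (S : Finset P) (o : Seg L) : g.cnt S o ≤ S.card := by
  classical
  exact (g.cnt_le_filter S o).trans (card_filter_le _ _)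

theorem cnt_empty (o : Seg L) : g.cnt ∅ o = 0 := by simp [cnt]

theorem noRun {n : ℕ} {M B : Finset P} (h : g.NoWin n M B) (hd : Disjoint M B) (l : L) (i : ℤ) :
    ∃ j, i ≤ j ∧ j < i + n ∧ ¬ (g.f l j ∈ M) := by
  by_contra hc
  push Not at hc
  have h1 := h (l, i, i + n - 1) (fun j h1 h2 =>
    disjoint_left.mp hd (hc j h1 (by simp only at h2; omega)))
  unfold cnt at h1
  rw [filter_true_of_mem (fun j hj => by
    rw [mem_Icc] at hj
    exact hc j hj.1 (by simp only at hj; omega))] at h1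
  simp at h1

theorem shatter {n : ℕ} {M B : Finset P} (hw : g.NoWin n M B) (hd : Disjoint M B) (l : L)
    (h : ℕ) (hh : 0 < h) (S : Finset P) (hS : S ⊆ M) :
    ∃ Z : Finset P, Disjoint M Z ∧ Z.card * h ≤ 2 * S.card ∧
      ∀ lo hi : ℤ, g.LF n Z (l, lo, hi) → g.cnt S (l, lo, hi) < h := by
  have hc : (S.preimage (g.f l) (g.inj l).injOn).card ≤ S.card := by
    apply card_le_card_of_injOn (g.f l)
    · intro i hi
      simpa using hi
    · exact (g.inj l).injOn
  obtain ⟨Z, hZ1, hZ2, hZ3⟩ := shatter1 n (fun i => g.f l i ∈ M) (g.noRun hw hd l) h hh _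
    (S.preimage (g.f l) (g.inj l).injOn) le_rfl (fun i hi => hS (mem_preimage.mp hi))
  refine ⟨Z.image (g.f l), ?_, ?_, ?_⟩
  · rw [disjoint_right]
    intro p hp
    obtain ⟨i, hi, rfl⟩ := mem_image.mp hp
    exact hZ1 i hi
  · have := Nat.mul_le_mul_right h (card_image_le (s := Z) (f := g.f l))
    omega
  · intro lo hi hlf
    refine lt_of_le_of_lt (card_le_card ?_) (hZ3 lo hi hlf.2 (fun i hi hb =>
      hlf.1 i hb.1 hb.2 (mem_image_of_mem _ hi)))
    intro i hi
    simp only [mem_filter, mem_Icc, mem_preimage] at hi ⊢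
    exact ⟨hi.2, hi.1⟩

def Two (S : Finset P) (l : L) : Prop := ∃ i j, i ≠ j ∧ g.f l i ∈ S ∧ g.f l j ∈ S

omit [DecidableEq P] in
theorem Two.mono {S S' : Finset P} {l : L} (h : g.Two S l) (hS : S ⊆ S') : g.Two S' l := by
  obtain ⟨i, j, h1, h2, h3⟩ := h
  exact ⟨i, j, h1, hS h2, hS h3⟩

theorem cnt_le_one {S : Finset P} {o : Seg L} (h : ¬ g.Two S o.1) : g.cnt S o ≤ 1 := by
  apply card_le_one.mpr
  intro i hi j hj
  by_contra hc
  exact h ⟨i, j, hc, (mem_filter.mp hi).2, (mem_filter.mp hj).2⟩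

omit [DecidableEq P] in
theorem exists_lines (S : Finset P) :
    ∃ G : Finset L, (∀ l, l ∈ G ↔ g.Two S l) ∧ G.card ≤ S.card ^ 2 := by
  classical
  have hch : ∀ l : L, ∃ x : ℤ × ℤ, g.Two S l → x.1 ≠ x.2 ∧ g.f l x.1 ∈ S ∧ g.f l x.2 ∈ S := by
    intro l
    by_cases h : g.Two S l
    · obtain ⟨i, j, h1⟩ := h
      exact ⟨(i, j), fun _ => h1⟩
    · exact ⟨(0, 0), fun h' => absurd h' h⟩
  choose x hx using hch
  have hinj : Set.InjOn (fun l => (g.f l (x l).1, g.f l (x l).2)) {l | g.Two S l} := by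
    intro l hl l' _ he
    simp only [Prod.mk.injEq] at he
    exact g.uniq l l' _ _ _ _ (hx l hl).1 he.1 he.2
  have hmap : Set.MapsTo (fun l => (g.f l (x l).1, g.f l (x l).2)) {l | g.Two S l}
      (↑(S ×ˢ S) : Set (P × P)) := by
    intro l hl
    simp only [coe_product, Set.mem_prod, mem_coe]
    exact (hx l hl).2
  have hfin : {l | g.Two S l}.Finite := Set.Finite.of_injOn hmap hinj (finite_toSet _)
  refine ⟨hfin.toFinset, by simp, ?_⟩
  rw [sq, ← card_product]
  apply card_le_card_of_injOn (fun l => (g.f l (x l).1, g.f l (x l).2))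
  · simpa using hmap
  · simpa using hinj

noncomputable def lines (S : Finset P) : Finset L := (g.exists_lines S).choose

omit [DecidableEq P] in
theorem mem_lines {S : Finset P} {l : L} : l ∈ g.lines S ↔ g.Two S l :=
  (g.exists_lines S).choose_spec.1 l

omit [DecidableEq P] in
theorem card_lines (S : Finset P) : (g.lines S).card ≤ S.card ^ 2 :=
  (g.exists_lines S).choose_spec.2

omit [DecidableEq P] in
theorem exists_rel (G : Finset L) :
    ∃ R : Finset P, (∀ l ∈ G, ∀ l' ∈ G, ∀ i i', g.f l i = g.f l' i' → g.f l i ∉ R → l = l') ∧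
      R.card ≤ G.card ^ 2 := by
  classical
  let T : P → Prop := fun p => ∃ y : (L × ℤ) × (L × ℤ), y.1.1 ∈ G ∧ y.2.1 ∈ G ∧ y.1.1 ≠ y.2.1 ∧
    g.f y.1.1 y.1.2 = p ∧ g.f y.2.1 y.2.2 = p
  by_cases hG : G = ∅
  · exact ⟨∅, by simp [hG], by simp⟩
  obtain ⟨l0, -⟩ := nonempty_iff_ne_empty.mpr hG
  have hch : ∀ p : P, ∃ y : (L × ℤ) × (L × ℤ), T p → (y.1.1 ∈ G ∧ y.2.1 ∈ G ∧ y.1.1 ≠ y.2.1 ∧
      g.f y.1.1 y.1.2 = p ∧ g.f y.2.1 y.2.2 = p) := by
    intro p
    by_cases h : T p
    · obtain ⟨y, h1⟩ := h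
      exact ⟨y, fun _ => h1⟩
    · exact ⟨((l0, 0), (l0, 0)), fun h' => absurd h' h⟩
  choose y hy using hch
  have hinj : Set.InjOn (fun p => ((y p).1.1, (y p).2.1)) {p | T p} := by
    intro p hp p' hp' he
    simp only [Prod.mk.injEq] at he
    obtain ⟨-, -, h3, h4, h5⟩ := hy p hp
    obtain ⟨-, -, -, h4', h5'⟩ := hy p' hp'
    by_contra hc
    apply h3
    refine g.uniq _ _ (y p).1.2 (y p').1.2 (y p).2.2 (y p').2.2 ?_ (h4.trans h5.symm) ?_
    · intro e
      apply hc
      rw [← h4, ← h4', e, he.1]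
    · rw [he.1, he.2, h4', h5']
  have hmap : Set.MapsTo (fun p => ((y p).1.1, (y p).2.1)) {p | T p}
      (↑(G ×ˢ G) : Set (L × L)) := by
    intro p hp
    simp only [coe_product, Set.mem_prod, mem_coe]
    exact ⟨(hy p hp).1, (hy p hp).2.1⟩
  have hfin : {p | T p}.Finite := Set.Finite.of_injOn hmap hinj (finite_toSet _)
  refine ⟨hfin.toFinset, ?_, ?_⟩
  · intro l hl l' hl' i i' he hn
    by_contra hc
    apply hn
    simp only [Set.Finite.mem_toFinset, Set.mem_ofPred_eq]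
    exact ⟨((l, i), (l', i')), hl, hl', hc, rfl, he.symm⟩
  · rw [sq, ← card_product]
    apply card_le_card_of_injOn (fun p => ((y p).1.1, (y p).2.1))
    · simpa using hmap
    · simpa using hinj

omit [DecidableEq P] in
theorem exists_obj (G : Finset L) (R : Finset P) :
    ∃ O : Finset (Seg L), (∀ l ∈ G, ∀ lo hi, g.f l lo ∈ R → g.f l hi ∈ R → (l, lo, hi) ∈ O) ∧
      O.card ≤ G.card * R.card ^ 2 := by
  classical
  have hc : ∀ l, (R.preimage (g.f l) (g.inj l).injOn).card ≤ R.card := by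
    intro l
    apply card_le_card_of_injOn (g.f l)
    · intro i hi
      simpa using hi
    · exact (g.inj l).injOn
  refine ⟨G.biUnion (fun l => ((R.preimage (g.f l) (g.inj l).injOn) ×ˢ
    (R.preimage (g.f l) (g.inj l).injOn)).image (fun x => (l, x))), ?_, ?_⟩
  · intro l hl lo hi h1 h2
    simp only [mem_biUnion, mem_image, mem_product, mem_preimage]
    exact ⟨l, hl, (lo, hi), ⟨h1, h2⟩, rfl⟩
  · apply card_biUnion_le_card_mul
    intro l _
    refine card_image_le.trans ?_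
    rw [card_product, sq]
    exact Nat.mul_le_mul (hc l) (hc l)

/-- Few lines receive many points of `X`. -/
theorem exists_rich (X : Finset P) (J : ℕ) (hJ : 0 < J) :
    ∃ G : Finset L, G.card * J ^ 2 ≤ X.card ^ 2 ∧ ∀ o : Seg L, o.1 ∉ G → g.cnt X o ≤ J := by
  classical
  let pts : L → Finset P := fun l => X.filter (fun p => ∃ i, g.f l i = p)
  refine ⟨(g.lines X).filter (fun l => J < (pts l).card), ?_, ?_⟩
  · have hdisj : ((((g.lines X).filter (fun l => J < (pts l).card)) : Finset L) : Set L).PairwiseDisjoint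
        (fun l => (pts l).offDiag) := by
      intro l _ l' _ hne
      rw [Function.onFun, disjoint_left]
      intro x hx hx'
      simp only [pts, mem_offDiag, mem_filter] at hx hx'
      obtain ⟨⟨-, i, hi⟩, ⟨-, j, hj⟩, hne'⟩ := hx
      obtain ⟨⟨-, i', hi'⟩, ⟨-, j', hj'⟩, -⟩ := hx'
      apply hne
      refine g.uniq l l' i j i' j' ?_ (hi.trans hi'.symm) (hj.trans hj'.symm)
      intro e
      apply hne'
      rw [← hi, ← hj, e]
    have h1 := card_biUnion hdisj
    have h2 : (((g.lines X).filter (fun l => J < (pts l).card)).biUnion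
        (fun l => (pts l).offDiag)).card ≤ X.card ^ 2 := by
      rw [sq, ← card_product]
      apply card_le_card
      intro x hx
      simp only [pts, mem_biUnion, mem_offDiag, mem_filter, mem_product] at hx ⊢
      obtain ⟨l, -, h⟩ := hx
      exact ⟨h.1.1, h.2.1.1⟩
    rw [h1] at h2
    refine le_trans ?_ h2
    rw [← smul_eq_mul]
    apply card_nsmul_le_sum
    intro l hl
    have h3 := (mem_filter.mp hl).2
    rw [offDiag_card]
    have : J ^ 2 + (pts l).card ≤ (pts l).card * (pts l).card := by nlinarith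
    omega
  · intro o ho
    by_cases ht : g.Two X o.1
    · have h1 : (pts o.1).card ≤ J := by
        by_contra hc
        exact ho (mem_filter.mpr ⟨g.mem_lines.mpr ht, by omega⟩)
      refine le_trans ((g.cnt_le_filter X o).trans (card_le_card ?_)) h1
      intro p hp
      simp only [pts, mem_filter] at hp ⊢
      obtain ⟨h2, i, -, -, h3⟩ := hp
      exact ⟨h2, i, h3⟩
    · exact (g.cnt_le_one ht).trans hJ

/-- Shatter a whole finite family of lines with respect to `S`. -/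
theorem shatter_all {n : ℕ} {M B : Finset P} (hw : g.NoWin n M B) (hd : Disjoint M B)
    (G : Finset L) (h : ℕ) (hh : 0 < h) (S : Finset P) (hS : S ⊆ M) (c : ℕ)
    (hc : 2 * S.card ≤ c * h) :
    ∃ Z : Finset P, Disjoint M Z ∧ Z.card ≤ G.card * c ∧
      ∀ o : Seg L, o.1 ∈ G → g.LF n Z o → g.cnt S o < h := by
  choose Z hZ using fun l => g.shatter hw hd l h hh S hS
  refine ⟨G.biUnion Z, ?_, ?_, ?_⟩
  · rw [disjoint_biUnion_right]
    exact fun l _ => (hZ l).1
  · apply card_biUnion_le_card_mul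
    intro l _
    exact Nat.le_of_mul_le_mul_right ((hZ l).2.1.trans hc) hh
  · intro o ho hlf
    exact (hZ o.1).2.2 o.2.1 o.2.2 (hlf.mono g (subset_biUnion_of_mem Z ho))

end Geo

end Pool.Agent.Lib.MP_7018e1_co
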