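import Pool.Agent.Lib.MP_7018e1_co.Geo
import Pool.Agent.Lib.MP_7018e1_co.Defs

set_option autoImplicit false

namespace Pool.Agent.Lib.MP_7018e1_co

open Finset

def pt (u d : ℤ × ℤ) (i : ℤ) : ℤ × ℤ := (u.1 + i * d.1, u.2 + i * d.2)

def LatLine : Type :=
  {s : Set (ℤ × ℤ) // ∃ y : (ℤ × ℤ) × (ℤ × ℤ), IsCoprime y.2.1 y.2.2 ∧ s = Set.range (pt y.1 y.2)}

theorem pt_inj {u d : ℤ × ℤ} (h : IsCoprime d.1 d.2) : Function.Injective (pt u d) := by
  intro i j hij
  obtain ⟨a, b, hab⟩ := h
  simp only [pt, Prod.mk.injEq] at hij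
  linear_combination a * hij.1 + b * hij.2 - (i - j) * hab

theorem mem_pt {u d : ℤ × ℤ} (h : IsCoprime d.1 d.2) (p : ℤ × ℤ) :
    p ∈ Set.range (pt u d) ↔ (p.1 - u.1) * d.2 = (p.2 - u.2) * d.1 := by
  constructor
  · rintro ⟨i, rfl⟩
    simp only [pt]
    ring
  · intro hp
    obtain ⟨a, b, hab⟩ := h
    refine ⟨a * (p.1 - u.1) + b * (p.2 - u.2), Prod.ext ?_ ?_⟩
    · simp only [pt]
      linear_combination (p.1 - u.1) * hab - b * hp
    · simp only [pt]
      linear_combination (p.2 - u.2) * hab + a * hp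

theorem mem_pt' {u d : ℤ × ℤ} (h : IsCoprime d.1 d.2) {i j : ℤ} (hij : i ≠ j) (p : ℤ × ℤ) :
    p ∈ Set.range (pt u d) ↔ (p.1 - (pt u d i).1) * ((pt u d j).2 - (pt u d i).2) =
      (p.2 - (pt u d i).2) * ((pt u d j).1 - (pt u d i).1) := by
  rw [mem_pt h]
  simp only [pt]
  constructor
  · intro hp
    linear_combination (j - i) * hp
  · intro hp
    apply mul_left_cancel₀ (sub_ne_zero.mpr hij.symm)
    linear_combination hp

noncomputable def plane : Geo (ℤ × ℤ) LatLine where
  f l := pt l.2.choose.1 l.2.choose.2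
  inj l := pt_inj l.2.choose_spec.1
  uniq l l' i j i' j' hij h1 h2 := by
    apply Subtype.ext
    have hij' : i' ≠ j' := by
      intro e
      apply hij
      apply pt_inj l.2.choose_spec.1
      rw [h1, h2, e]
    ext p
    rw [l.2.choose_spec.2, l'.2.choose_spec.2, mem_pt' l.2.choose_spec.1 hij,
      mem_pt' l'.2.choose_spec.1 hij', h1, h2]

theorem seg_pt {u d : ℤ × ℤ} (h : IsCoprime d.1 d.2) {i j k : ℤ} (hij : i < j) :
    emb (pt u d k) ∈ segment ℝ (emb (pt u d i)) (emb (pt u d j)) ↔ i ≤ k ∧ k ≤ j := by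
  have hij' : (i : ℝ) < j := by exact_mod_cast hij
  constructor
  · rintro ⟨s, t, hs, ht, hst, he⟩
    obtain ⟨a, b, hab⟩ := h
    have hab' : (a : ℝ) * d.1 + b * d.2 = 1 := by exact_mod_cast hab
    simp only [emb, pt, Prod.smul_mk, Prod.mk_add_mk, Prod.mk.injEq, smul_eq_mul] at he
    push_cast at he
    have hk : (k : ℝ) = s * i + t * j := by
      linear_combination (-a) * he.1 - b * he.2 + (s * i + t * j - k) * hab' +
        (a * u.1 + b * u.2) * hst
    have e1 : (k : ℝ) - i = t * (j - i) := by linear_combination hk + i * hst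
    have e2 : (j : ℝ) - k = s * (j - i) := by linear_combination -hk - j * hst
    have e3 := mul_nonneg ht (sub_nonneg.mpr hij'.le)
    have e4 := mul_nonneg hs (sub_nonneg.mpr hij'.le)
    constructor
    · have : (i : ℝ) ≤ k := by linarith
      exact_mod_cast this
    · have : (k : ℝ) ≤ j := by linarith
      exact_mod_cast this
  · rintro ⟨h1, h2⟩
    have h1' : (i : ℝ) ≤ k := by exact_mod_cast h1
    have h2' : (k : ℝ) ≤ j := by exact_mod_cast h2
    have hp : (0 : ℝ) < j - i := by linarith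
    refine ⟨(j - k) / (j - i), (k - i) / (j - i), div_nonneg (by linarith) hp.le,
      div_nonneg (by linarith) hp.le, by field_simp; ring, ?_⟩
    simp only [emb, pt, Prod.smul_mk, Prod.mk_add_mk, Prod.mk.injEq, smul_eq_mul]
    push_cast
    constructor <;> field_simp <;> ring

theorem not_win_aux {n : ℕ} {M B : Finset (ℤ × ℤ)} (hw : plane.NoWin n M B) (l : LatLine)
    (i j : ℤ) (hij : i < j) (S : Finset (ℤ × ℤ)) (hS : S ⊆ M) (hc : S.card = n)
    (h1 : ∀ p ∈ S, emb p ∈ segment ℝ (emb (plane.f l i)) (emb (plane.f l j)))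
    (h2 : ∀ p ∈ B, emb p ∉ segment ℝ (emb (plane.f l i)) (emb (plane.f l j))) : False := by
  have hcop := l.2.choose_spec.1
  have h3 := hw (l, i, j) (fun k hk1 hk2 hk => h2 _ hk ((seg_pt hcop hij).mpr ⟨hk1, hk2⟩))
  have h4 : S ⊆ ((Icc i j).filter (fun k => plane.f l k ∈ M)).image (plane.f l) := by
    intro p hp
    have h5 := h1 p hp
    have h6 : p ∈ Set.range (plane.f l) := by
      apply (mem_pt' hcop hij.ne p).mpr
      obtain ⟨s, t, -, -, hst, he⟩ := h5
      simp only [emb, Prod.smul_mk, Prod.mk_add_mk, Prod.mk.injEq, smul_eq_mul] at he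
      have hs : s = 1 - t := by linarith
      have : ((p.1 : ℝ) - (plane.f l i).1) * ((plane.f l j).2 - (plane.f l i).2) =
          (p.2 - (plane.f l i).2) * ((plane.f l j).1 - (plane.f l i).1) := by
        rw [← he.1, ← he.2, hs]
        ring
      exact_mod_cast this
    obtain ⟨k, rfl⟩ := h6
    exact mem_image_of_mem _ (mem_filter.mpr ⟨mem_Icc.mpr ((seg_pt hcop hij).mp h5), hS hp⟩)
  have h7 := (card_le_card h4).trans card_image_le
  exact absurd h3 (not_lt.mpr (hc ▸ h7))

theorem not_win {n : ℕ} (hn : 2 ≤ n) {M B : Finset (ℤ × ℤ)} (hw : plane.NoWin n M B) :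
    ¬ Win n M B := by
  rintro ⟨S, hS, hc, a, -, c, -, h1, h2⟩
  have hac : a ≠ c := by
    rintro rfl
    have : S ⊆ {a} := by
      intro p hp
      have h3 := h1 p hp
      rw [segment_same, Set.mem_singleton_iff] at h3
      simp only [emb, Prod.mk.injEq, Int.cast_inj] at h3
      exact mem_singleton.mpr (Prod.ext h3.1 h3.2)
    have := card_le_card this
    rw [card_singleton] at this
    omega
  have hg : 0 < Int.gcd (c.1 - a.1) (c.2 - a.2) := by
    rw [Int.gcd_pos_iff]
    by_contra hc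
    push Not at hc
    exact hac (Prod.ext (by omega) (by omega))
  obtain ⟨e, d1, d2, -, hcop, he1, he2⟩ := Int.exists_gcd_one' hg
  let l : LatLine := ⟨Set.range (pt a (d1, d2)), (a, (d1, d2)),
    Int.isCoprime_iff_gcd_eq_one.mpr hcop, rfl⟩
  have hl : Set.range (pt a (d1, d2)) = Set.range (plane.f l) := l.2.choose_spec.2
  obtain ⟨i, hi⟩ : a ∈ Set.range (plane.f l) := hl ▸ ⟨0, by simp [pt]⟩
  obtain ⟨j, hj⟩ : c ∈ Set.range (plane.f l) := hl ▸ ⟨e, Prod.ext
    (by simp only [pt]; linear_combination -he1) (by simp only [pt]; linear_combination -he2)⟩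
  rw [← hi, ← hj] at h1 h2
  rcases lt_trichotomy i j with h | h | h
  · exact not_win_aux hw l i j h S hS hc h1 h2
  · exact hac (by rw [← hi, ← hj, h])
  · rw [segment_symm] at h1 h2
    exact not_win_aux hw l j i h S hS hc h1 h2

end Pool.Agent.Lib.MP_7018e1_co
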