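import Pool.Agent.Lib.MP_7018e1_co.Step
import Pool.Agent.Lib.MP_7018e1_co.Plane

set_option autoImplicit false

namespace Pool.Agent.Lib.MP_7018e1_co

open Finset

theorem exists_pad (M B Z : Finset (ℤ × ℤ)) (hZ : Disjoint M Z) (k : ℕ) (hk : Z.card ≤ k) :
    ∃ Y : Finset (ℤ × ℤ), Disjoint Y (M ∪ B) ∧ Y.card = k ∧ B ∪ Z ⊆ B ∪ Y := by
  have hinf : ((↑(M ∪ B ∪ Z) : Set (ℤ × ℤ))ᶜ).Infinite := (finite_toSet _).infinite_compl
  obtain ⟨Y, hY1, hY2⟩ := hinf.exists_subset_card_eq (k - (Z \ B).card)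
  have hY3 : ∀ p ∈ Y, p ∉ M ∧ p ∉ B ∧ p ∉ Z := by
    intro p hp
    have := hY1 (mem_coe.mpr hp)
    simp only [Set.mem_compl_iff, mem_coe, mem_union] at this
    tauto
  have hc : (Z \ B).card ≤ Z.card := card_le_card sdiff_subset
  refine ⟨(Z \ B) ∪ Y, ?_, ?_, ?_⟩
  · rw [disjoint_left]
    intro p hp
    simp only [mem_union, mem_sdiff] at hp ⊢
    rcases hp with hp | hp
    · have := disjoint_right.mp hZ hp.1
      tauto
    · have := hY3 p hp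
      tauto
  · rw [card_union_of_disjoint, hY2]
    · omega
    · rw [disjoint_right]
      intro p hp
      have := hY3 p hp
      simp only [mem_sdiff]
      tauto
  · intro p hp
    simp only [mem_union, mem_sdiff] at hp ⊢
    tauto

theorem not_canForce (π : Par) (hn : 2 ≤ π.n) (m b : ℕ → ℕ) (hm : ∀ t, 1 ≤ t → m t ≤ t ^ π.A)
    (hb : ∀ t y, y ^ π.q ≤ t → y ≤ b t) (k : ℕ) : ∀ t H B, 1 ≤ t → π.Inv plane t H B →
    (∀ s, t ≤ s → s < t + k → m s + cE π.A π.q * π.J < π.n) → ¬ CanForce m b π.n k t (H t) B := by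
  induction k with
  | zero => exact fun _ _ _ _ _ _ h => h
  | succ k ih =>
    rintro t H B ht hI hs ⟨X, hX1, hX2, hX3⟩
    have hXn : X.card + cE π.A π.q * π.J < π.n := hX2 ▸ hs t le_rfl (by omega)
    rcases hX3 with h | h
    · exact not_win hn (hI.noWin X hXn) h
    obtain ⟨Z, hZ1, hZ2, hZ3⟩ := hI.step hX1 (hX2 ▸ hm t ht) hXn (b t) (hb t)
    obtain ⟨Y, hY1, hY2, hY3⟩ := exists_pad (H t ∪ X) B Z hZ1 (b t) hZ2
    have hd : Disjoint (H t ∪ X) (B ∪ Y) :=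
      disjoint_union_right.mpr ⟨disjoint_union_left.mpr ⟨hI.disj, (disjoint_union_right.mp hX1).2⟩,
        (disjoint_union_right.mp hY1).1.symm⟩
    have := ih (t + 1) _ _ (by omega) (hZ3 _ hY3 hd) (fun s h1 h2 => hs s (by omega) (by omega))
    rw [Par.upd_succ] at this
    exact this (h Y hY1 hY2)

theorem breaker_general (A q : ℕ) (hq : 0 < q) (m b : ℕ → ℕ) (hm : ∀ t, 1 ≤ t → m t ≤ t ^ A)
    (hb : ∀ t y, y ^ q ≤ t → y ≤ b t) (ε : ℝ) (hε : 0 < ε) :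
    ∀ᶠ n : ℕ in Filter.atTop, ∀ T, Forces m b n T →
      ∃ s, 1 ≤ s ∧ s ≤ T ∧ (1 - ε) * n ≤ m s := by
  obtain ⟨W, hW⟩ := exists_nat_gt ((cE A q : ℝ) / ε)
  have hW0 : 0 < W := by
    have : (0 : ℝ) < W := lt_of_le_of_lt (by positivity) hW
    exact_mod_cast this
  have hW1 : (cE A q : ℝ) ≤ ε * W := by
    rw [div_lt_iff₀ hε] at hW
    linarith
  set x0 := 2 * (2 * W) + 2 + (2 * W) ^ 2 + 2 * (7 * q) with hx0
  obtain ⟨sch⟩ := exists_sched (c := 7 * q) (x0 := x0) (3 * (7 * q) * (A + 1) + 1) (by omega)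
    (by omega)
  filter_upwards [Filter.eventually_ge_atTop (W * ((x0 ^ (7 * q)) ^ (A + 1) + 1) + 2)] with n hn
  intro T hT
  have hJ : (x0 ^ (7 * q)) ^ (A + 1) + 1 ≤ n / W := by
    rw [Nat.le_div_iff_mul_le hW0, mul_comm]
    omega
  have h1 := Nat.div_add_mod n W
  have h2 := Nat.mod_lt n hW0
  have h3 : W * 1 ≤ W * (n / W) := Nat.mul_le_mul_left _ (by omega)
  let π : Par := ⟨A, q, 2 * W, x0, n, n / W, sch, hq, by omega, by rw [mul_assoc]; omega,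
    by omega, by omega, by omega, by omega⟩
  by_contra hc
  push Not at hc
  refine not_canForce π (show 2 ≤ n by omega) m b hm hb T 1 _ _ le_rfl (π.inv_init plane) ?_ hT
  intro s hs1 hs2
  have h4 := hc s hs1 (by omega)
  have h5 : ((W * (n / W) : ℕ) : ℝ) ≤ n := by exact_mod_cast (by omega : W * (n / W) ≤ n)
  push_cast at h5
  have h6 : (cE A q : ℝ) * ((n / W : ℕ) : ℝ) ≤ ε * W * ((n / W : ℕ) : ℝ) :=
    mul_le_mul_of_nonneg_right hW1 (by positivity)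
  have h7 := mul_le_mul_of_nonneg_left h5 hε.le
  have h8 : (m s : ℝ) + (cE A q : ℝ) * ((n / W : ℕ) : ℝ) < n := by nlinarith
  exact_mod_cast h8

theorem powFloor_le (α : ℝ) (t : ℕ) (ht : 1 ≤ t) : powFloor α t ≤ t ^ ⌈α⌉₊ := by
  have h1 : (1 : ℝ) ≤ t := by exact_mod_cast ht
  apply Nat.floor_le_of_le
  push_cast
  rw [← Real.rpow_natCast]
  exact Real.rpow_le_rpow_of_exponent_le h1 (Nat.le_ceil α)

theorem le_powFloor {β : ℝ} {q : ℕ} (hq : 0 < q) (hβ : (q : ℝ)⁻¹ ≤ β) (t y : ℕ) (h : y ^ q ≤ t) :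
    y ≤ powFloor β t := by
  rcases Nat.eq_zero_or_pos y with rfl | hy
  · exact Nat.zero_le _
  apply Nat.le_floor
  have h1 : (1 : ℝ) ≤ t := by exact_mod_cast (Nat.one_le_pow _ _ hy).trans h
  have h2 : (y : ℝ) ^ q ≤ t := by exact_mod_cast h
  calc (y : ℝ) = ((y : ℝ) ^ q) ^ ((q : ℝ)⁻¹) :=
        (Real.pow_rpow_inv_natCast (by positivity) hq.ne').symm
    _ ≤ (t : ℝ) ^ ((q : ℝ)⁻¹) := Real.rpow_le_rpow (by positivity) h2 (by positivity)
    _ ≤ (t : ℝ) ^ β := Real.rpow_le_rpow_of_exponent_le h1 hβ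

theorem breaker_pow (α β : ℝ) (hβ : 0 < β) (ε : ℝ) (hε : 0 < ε) :
    ∀ᶠ n : ℕ in Filter.atTop, ∀ T, Forces (powFloor α) (powFloor β) n T →
      (1 - ε) * n ≤ powFloor α T := by
  obtain ⟨q, hq⟩ := exists_nat_gt β⁻¹
  have hq0 : (0 : ℝ) < q := lt_trans (by positivity) hq
  have hq1 : 0 < q := by exact_mod_cast hq0
  have hq2 : (q : ℝ)⁻¹ ≤ β := (inv_le_comm₀ hq0 hβ).mpr hq.le
  have key := breaker_general ⌈α⌉₊ q hq1 (powFloor α) (powFloor β) (powFloor_le α)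
    (le_powFloor hq1 hq2)
  by_cases hα : 0 ≤ α
  · filter_upwards [key ε hε] with n hn T hT
    obtain ⟨s, -, h2, h3⟩ := hn T hT
    refine h3.trans ?_
    exact_mod_cast Nat.floor_mono (Real.rpow_le_rpow (by positivity) (by exact_mod_cast h2) hα)
  · filter_upwards [key (1 / 2) (by norm_num), Filter.eventually_ge_atTop 3] with n hn hn3 T hT
    obtain ⟨s, h1, -, h3⟩ := hn T hT
    have h4 := powFloor_le α s h1
    rw [Nat.ceil_eq_zero.mpr (by linarith), pow_zero] at h4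
    have h5 : (powFloor α s : ℝ) ≤ 1 := by exact_mod_cast h4
    have h6 : (3 : ℝ) ≤ n := by exact_mod_cast hn3
    linarith

theorem not_makerWin (α β : ℝ) (hβ : 0 < β) : ¬ MakerWin (powFloor α) (powFloor β) := by
  rintro ⟨ε, hε, h⟩
  obtain ⟨n, ⟨τ, h1, h2⟩, h3⟩ := (h.and (breaker_pow α β hβ ε hε)).exists
  exact absurd h2 (not_lt.mpr (h3 τ h1.1))

end Pool.Agent.Lib.MP_7018e1_co
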