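import Pool.Agent.Lib.MP_7018e1_co.Static

set_option autoImplicit false

namespace Pool.Agent.Lib.MP_7018e1_co

open Finset

variable {P L : Type} [DecidableEq P]

namespace Game

variable {g : Geo P L} (s : Game g)

open Classical in
theorem sum_cnt_le (F : Finset (Seg L)) (X : Finset P) (a : Seg L → ℝ) (ha : ∀ o, 0 ≤ a o) :
    ∑ o ∈ F, (g.cnt X o : ℝ) * a o ≤ ∑ p ∈ X, ∑ o ∈ F.filter (fun o => g.On p o), a o := by
  have h1 : ∑ p ∈ X, ∑ o ∈ F.filter (fun o => g.On p o), a o =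
      ∑ o ∈ F, ((X.filter (fun p => g.On p o)).card : ℝ) * a o := by
    simp only [sum_filter]
    rw [sum_comm]
    apply sum_congr rfl
    intro o _
    rw [← sum_filter, sum_const, nsmul_eq_mul]
  rw [h1]
  apply sum_le_sum
  intro o _
  exact mul_le_mul_of_nonneg_right (by exact_mod_cast g.cnt_le_filter X o) (ha o)

theorem maker {k : ℕ} {M B B' X : Finset P} {K : ℝ} (hI : s.GInv k M B K) (hB : B ⊆ B')
    (hX : Disjoint X (M ∪ B)) (hXn : X.card ≤ s.n) (J : ℕ)
    (hcap : ∀ o, g.LF s.n B' o → g.cnt X o ≤ J) (N : ℕ) (hN : s.O.card ≤ N)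
    (hk : 2 * s.n * ((s.ρ - 1) * s.ρ ^ J) ≤ k) :
    s.Bound (M ∪ X) B' (K + k * (N + 1)) := by
  classical
  obtain ⟨v, hv0, hv1, hv2⟩ := hI
  intro F hF
  have h0 := hv2 F (hF.mono s hB)
  set μ := (s.ρ - 1) * s.ρ ^ J with hμ
  have hμ0 : 0 ≤ μ := mul_nonneg (sub_nonneg.mpr s.hρ) (pow_nonneg (by linarith [s.hρ]) _)
  have hXr : (X.card : ℝ) ≤ s.n := by exact_mod_cast hXn
  -- type one objects
  have h1 : s.Phi1 (M ∪ X) B' ≤ s.Phi1 M B + μ * (s.n * (v + N)) := by
    have e1 : ∀ o ∈ s.O, s.w1 (M ∪ X) B' o ≤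
        s.w1 M B o + μ * ((g.cnt (X ∩ s.R) o : ℝ) * (s.w1 M B o + 1)) := by
      intro o _
      by_cases h : s.Alive B' o
      · simp only [w1, if_pos h, if_pos (h.mono s hB)]
        obtain ⟨lo, hi, h1, h2, h3⟩ := h
        have hj : g.cnt (X ∩ s.R) o ≤ J :=
          (g.cnt_mono inter_subset_left o).trans ((g.cnt_sub X h1 h2).trans (hcap _ h3))
        have hc : g.cnt (((M ∪ X) \ s.H) ∩ s.R) o ≤
            g.cnt ((M \ s.H) ∩ s.R) o + g.cnt (X ∩ s.R) o := by
          apply g.cnt_le_add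
          intro p hp
          simp only [mem_inter, mem_sdiff, mem_union] at hp ⊢
          tauto
        have := phi_add s.hρ s.h hj hc
        linarith
      · have h2 := s.w1_nonneg M B o
        have h3 : 0 ≤ μ * ((g.cnt (X ∩ s.R) o : ℝ) * (s.w1 M B o + 1)) := by positivity
        have h4 : s.w1 (M ∪ X) B' o = 0 := by simp only [w1, if_neg h]
        linarith
    have e2 := sum_le_sum e1
    rw [sum_add_distrib, ← mul_sum] at e2
    have e3 := sum_cnt_le (g := g) s.O (X ∩ s.R) (fun o => s.w1 M B o + 1)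
      (fun o => by linarith [s.w1_nonneg M B o])
    have e4 : ∑ p ∈ X ∩ s.R, ∑ o ∈ s.O.filter (fun o => g.On p o), (s.w1 M B o + 1) ≤
        ∑ _p ∈ X ∩ s.R, (v + N) := by
      apply sum_le_sum
      intro p hp
      rw [mem_inter] at hp
      have hpn := disjoint_left.mp hX hp.1
      rw [mem_union, not_or] at hpn
      have h5 := hv1.1 p hp.2 hpn.1 hpn.2
      have h6 : ((s.O.filter (fun o => g.On p o)).card : ℝ) ≤ N := by
        exact_mod_cast (card_filter_le _ _).trans hN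
      rw [sum_add_distrib, sum_const, nsmul_eq_mul, mul_one]
      unfold val1 at h5
      linarith
    rw [sum_const, nsmul_eq_mul] at e4
    have e5 : ((X ∩ s.R).card : ℝ) ≤ s.n :=
      le_trans (by exact_mod_cast card_le_card inter_subset_left) hXr
    have e6 : ((X ∩ s.R).card : ℝ) * (v + N) ≤ s.n * (v + N) :=
      mul_le_mul_of_nonneg_right e5 (by positivity)
    have e7 := mul_le_mul_of_nonneg_left ((e3.trans e4).trans e6) hμ0
    unfold Phi1
    linarith
  -- type two objects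
  have h2 : ∑ o ∈ F, s.w2 (M ∪ X) o ≤ ∑ o ∈ F, s.w2 M o + μ * (s.n * (v + 1)) := by
    have e1 : ∀ o ∈ F, s.w2 (M ∪ X) o ≤
        s.w2 M o + μ * ((g.cnt (X \ s.R) o : ℝ) * (v + 1)) := by
      intro o ho
      have hj : g.cnt (X \ s.R) o ≤ J :=
        (g.cnt_mono sdiff_subset o).trans (hcap _ (hF.1 o ho).2)
      have hc : g.cnt (((M ∪ X) \ s.H) \ s.R) o ≤
          g.cnt ((M \ s.H) \ s.R) o + g.cnt (X \ s.R) o := by
        apply g.cnt_le_add
        intro p hp
        simp only [mem_sdiff, mem_union] at hp ⊢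
        tauto
      have h3 := phi_add s.hρ s.h hj hc
      have h4 := hv1.2 o (hF.1 o ho).1 ((hF.1 o ho).2.mono g hB)
      have h5 : (g.cnt (X \ s.R) o : ℝ) * μ * (s.w2 M o + 1) ≤
          (g.cnt (X \ s.R) o : ℝ) * μ * (v + 1) :=
        mul_le_mul_of_nonneg_left (by linarith) (by positivity)
      unfold w2 at h5 ⊢
      linarith
    have e2 := sum_le_sum e1
    rw [sum_add_distrib, ← mul_sum] at e2
    have e3 := sum_cnt_le (g := g) F (X \ s.R) (fun _ => v + 1) (fun o => by linarith)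
    have e4 : ∑ p ∈ X \ s.R, ∑ _o ∈ F.filter (fun o => g.On p o), (v + 1) ≤
        ∑ _p ∈ X \ s.R, (v + 1) := by
      apply sum_le_sum
      intro p hp
      have h6 : (F.filter (fun o => g.On p o)).card ≤ 1 := by
        apply card_le_one.mpr
        intro o ho o' ho'
        obtain ⟨hoF, i, hi1, hi2, hi3⟩ := mem_filter.mp ho
        obtain ⟨hoF', i', hi1', hi2', hi3'⟩ := mem_filter.mp ho'
        have hl : o.1 = o'.1 := s.hR _ (hF.1 o hoF).1 _ (hF.1 o' hoF').1 i i'
          (hi3.trans hi3'.symm) (hi3 ▸ (mem_sdiff.mp hp).2)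
        have hii : i = i' := g.inj o.1 (by rw [hi3, hl, hi3'])
        subst hii
        exact hF.2 o hoF o' hoF' hl i hi1 hi2 hi1' hi2'
      have h7 : ((F.filter (fun o => g.On p o)).card : ℝ) ≤ 1 := by exact_mod_cast h6
      rw [sum_const, nsmul_eq_mul]
      nlinarith
    rw [sum_const, nsmul_eq_mul] at e4
    have e5 : ((X \ s.R).card : ℝ) ≤ s.n :=
      le_trans (by exact_mod_cast card_le_card sdiff_subset) hXr
    have e6 : ((X \ s.R).card : ℝ) * (v + 1) ≤ s.n * (v + 1) :=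
      mul_le_mul_of_nonneg_right e5 (by positivity)
    have e7 := mul_le_mul_of_nonneg_left ((e3.trans e4).trans e6) hμ0
    linarith
  have h3 : 2 * s.n * μ * v ≤ k * v := mul_le_mul_of_nonneg_right hk hv0
  have h4 : 2 * s.n * μ * (N + 1) ≤ k * (N + 1) := mul_le_mul_of_nonneg_right hk (by positivity)
  have h5 : 0 ≤ s.n * μ * (N + 1) := by positivity
  nlinarith

theorem light {k : ℕ} {M B : Finset P} {K : ℝ} (hI : s.GInv k M B K) (hρ : 1 < s.ρ) (E : ℕ)
    (hE : K + 1 ≤ s.ρ ^ E) (o : Seg L) (ho : o.1 ∈ s.G) (hlf : g.LF s.n B o) :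
    g.cnt (M \ s.H) o ≤ 2 * (E + s.h) := by
  classical
  obtain ⟨v, hv0, -, hv2⟩ := hI
  have hkv : 0 ≤ (k : ℝ) * v := by positivity
  have key : ∀ c, phi s.ρ s.h c ≤ K → c ≤ E + s.h := by
    intro c hc
    unfold phi at hc
    have := (pow_le_pow_iff_right₀ hρ).mp (show s.ρ ^ (c - s.h) ≤ s.ρ ^ E by linarith)
    omega
  have h2 : g.cnt ((M \ s.H) \ s.R) o ≤ E + s.h := by
    apply key
    have h3 := hv2 {o} ⟨by simpa using ⟨ho, hlf⟩, by simp⟩
    rw [sum_singleton] at h3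
    have := s.Phi1_nonneg M B
    unfold w2 at h3
    linarith
  have h1 : g.cnt ((M \ s.H) ∩ s.R) o ≤ E + s.h := by
    let T := (Icc o.2.1 o.2.2).filter (fun i => g.f o.1 i ∈ (M \ s.H) ∩ s.R)
    by_cases hne : T.Nonempty
    swap
    · have : T.card = 0 := by simpa using hne
      exact le_trans (le_of_eq this) (Nat.zero_le _)
    have ha := mem_filter.mp (T.min'_mem hne)
    have he := mem_filter.mp (T.max'_mem hne)
    have hO := s.hO o.1 ho _ _ (mem_inter.mp ha.2).2 (mem_inter.mp he.2).2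
    have hal : s.Alive B (o.1, T.min' hne, T.max' hne) :=
      ⟨o.2.1, o.2.2, (mem_Icc.mp ha.1).1, (mem_Icc.mp he.1).2, hlf⟩
    have h3 := hv2 ∅ ⟨by simp, by simp⟩
    rw [sum_empty] at h3
    have h4 : s.w1 M B (o.1, T.min' hne, T.max' hne) ≤ s.Phi1 M B :=
      single_le_sum (fun o _ => s.w1_nonneg M B o) hO
    simp only [w1, if_pos hal] at h4
    refine le_trans (card_le_card ?_) (key _ (h4.trans (by linarith)))
    intro i hi
    simp only [mem_filter, mem_Icc]
    exact ⟨⟨T.min'_le i hi, T.le_max' i hi⟩, (mem_filter.mp hi).2⟩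
  have h3 := g.cnt_le_add (S := M \ s.H) (S1 := (M \ s.H) ∩ s.R) (S2 := (M \ s.H) \ s.R)
    (by
      intro p hp
      simp only [mem_union, mem_inter, mem_sdiff] at hp ⊢
      tauto) o
  omega

end Game

end Pool.Agent.Lib.MP_7018e1_co
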