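import Mathlib

set_option autoImplicit false

namespace Pool.Agent.Lib.MP_7018e1_co

open Finset

theorem seal_left (n : ℕ) (M : ℤ → Prop) (hM : ∀ i : ℤ, ∃ j, i ≤ j ∧ j < i + n ∧ ¬ M j) (s : ℤ) :
    ∃ l, l < s ∧ ¬ M l ∧ ∀ i, l < i → i < s → M i := by
  obtain ⟨j, _, hj2, hj3⟩ := hM (s - n)
  obtain ⟨l, hl, hmax⟩ := Int.exists_greatest_of_bdd (P := fun z => z < s ∧ ¬ M z)
    ⟨s, fun z hz => hz.1.le⟩ ⟨j, by omega, hj3⟩
  refine ⟨l, hl.1, hl.2, fun i h1 h2 => ?_⟩
  by_contra hc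
  have := hmax i ⟨h2, hc⟩
  omega

theorem seal_right (n : ℕ) (M : ℤ → Prop) (hM : ∀ i : ℤ, ∃ j, i ≤ j ∧ j < i + n ∧ ¬ M j) (s : ℤ) :
    ∃ r, s < r ∧ ¬ M r ∧ ∀ i, s < i → i < r → M i := by
  obtain ⟨j, hj1, _, hj3⟩ := hM (s + 1)
  obtain ⟨r, hr, hmin⟩ := Int.exists_least_of_bdd (P := fun z => s < z ∧ ¬ M z)
    ⟨s, fun z hz => hz.1.le⟩ ⟨j, by omega, hj3⟩
  refine ⟨r, hr.1, hr.2, fun i h1 h2 => ?_⟩
  by_contra hc
  have := hmin i ⟨h1, hc⟩
  omega

theorem shatter1 (n : ℕ) (M : ℤ → Prop) (hM : ∀ i : ℤ, ∃ j, i ≤ j ∧ j < i + n ∧ ¬ M j)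
    (h : ℕ) (hh : 0 < h) (k : ℕ) : ∀ S : Finset ℤ, S.card ≤ k → (∀ i ∈ S, M i) →
    ∃ Z : Finset ℤ, (∀ i ∈ Z, ¬ M i) ∧ Z.card * h ≤ 2 * S.card ∧
      ∀ lo hi : ℤ, lo + n ≤ hi + 1 → (∀ i ∈ Z, ¬ (lo ≤ i ∧ i ≤ hi)) →
        (S.filter (fun i => lo ≤ i ∧ i ≤ hi)).card < h := by
  induction k with
  | zero =>
    intro S hS _
    refine ⟨∅, by simp, by simp, fun lo hi _ _ => ?_⟩
    have := card_filter_le S (fun i => lo ≤ i ∧ i ≤ hi)
    omega
  | succ k ih =>
    intro S hS hSM
    by_cases hlt : S.card < h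
    · refine ⟨∅, by simp, by simp, fun lo hi _ _ => ?_⟩
      have := card_filter_le S (fun i => lo ≤ i ∧ i ≤ hi)
      omega
    have hne : S.Nonempty := card_pos.mp (by omega)
    obtain ⟨s, hs, hsmin⟩ := Int.exists_least_of_bdd
      (P := fun z => h ≤ (S.filter (fun i => i ≤ z)).card)
      ⟨S.min' hne, fun z hz => by
        obtain ⟨i, hi⟩ := card_pos.mp (lt_of_lt_of_le hh hz)
        rw [mem_filter] at hi
        exact (S.min'_le i hi.1).trans hi.2⟩
      ⟨S.max' hne, by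
        rw [filter_true_of_mem (fun i hi => S.le_max' i hi)]
        omega⟩
    have hs1 : (S.filter (fun i => i ≤ s - 1)).card < h := by
      by_contra hc
      have := hsmin (s - 1) (by omega)
      omega
    have hsS : s ∈ S := by
      by_contra hc
      have : S.filter (fun i => i ≤ s) = S.filter (fun i => i ≤ s - 1) := by
        apply filter_congr
        intro i hi
        have : i ≠ s := fun e => hc (e ▸ hi)
        constructor <;> intro <;> omega
      rw [this] at hs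
      omega
    have hsplit := card_filter_add_card_filter_not (s := S) (fun i => i ≤ s)
    obtain ⟨Z, hZ1, hZ2, hZ3⟩ := ih (S.filter (fun i => ¬ i ≤ s)) (by omega)
      (fun i hi => hSM i (mem_filter.mp hi).1)
    obtain ⟨l, hl1, hl2, hl3⟩ := seal_left n M hM s
    obtain ⟨r, hr1, hr2, hr3⟩ := seal_right n M hM s
    refine ⟨insert l (insert r Z), ?_, ?_, ?_⟩
    · intro i hi
      simp only [mem_insert] at hi
      rcases hi with rfl | rfl | hi
      · exact hl2
      · exact hr2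
      · exact hZ1 i hi
    · have h1 := card_insert_le l (insert r Z)
      have h2 := card_insert_le r Z
      have h3 : (insert l (insert r Z)).card * h ≤ (Z.card + 2) * h :=
        Nat.mul_le_mul_right h (by omega)
      rw [add_mul] at h3
      omega
    · intro lo hi hlive hfree
      have hfl := hfree l (by simp)
      have hfr := hfree r (by simp)
      by_cases h1 : hi < s
      · refine lt_of_le_of_lt (card_le_card ?_) hs1
        intro i hi
        rw [mem_filter] at hi ⊢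
        exact ⟨hi.1, by omega⟩
      by_cases h2 : s < lo
      · refine lt_of_le_of_lt (card_le_card ?_)
          (hZ3 lo hi hlive (fun i hi => hfree i (by simp [hi])))
        intro i hi
        simp only [mem_filter] at hi ⊢
        exact ⟨⟨hi.1, by omega⟩, hi.2⟩
      exfalso
      obtain ⟨j, hj1, hj2, hj3⟩ := hM lo
      apply hj3
      rcases lt_trichotomy j s with hj | hj | hj
      · exact hl3 j (by omega) hj
      · exact hj ▸ hSM s hsS
      · exact hr3 j hj (by omega)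

end Pool.Agent.Lib.MP_7018e1_co
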