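import Pool.Agent.Lib.MP_7018e1_co.Geo

set_option autoImplicit false

namespace Pool.Agent.Lib.MP_7018e1_co

open Finset

noncomputable def phi (ρ : ℝ) (h c : ℕ) : ℝ := ρ ^ (c - h) - 1

theorem phi_nonneg {ρ : ℝ} (hρ : 1 ≤ ρ) (h c : ℕ) : 0 ≤ phi ρ h c :=
  sub_nonneg.mpr (one_le_pow₀ hρ)

theorem phi_mono {ρ : ℝ} (hρ : 1 ≤ ρ) (h : ℕ) {c c' : ℕ} (hc : c ≤ c') :
    phi ρ h c ≤ phi ρ h c' :=
  sub_le_sub_right (pow_le_pow_right₀ hρ (by omega)) 1

theorem phi_zero (ρ : ℝ) {h c : ℕ} (hc : c ≤ h) : phi ρ h c = 0 := by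
  simp [phi, Nat.sub_eq_zero_of_le hc]

theorem pow_sub_one_le {ρ : ℝ} (hρ : 1 ≤ ρ) (j : ℕ) : ρ ^ j - 1 ≤ j * ((ρ - 1) * ρ ^ j) := by
  induction j with
  | zero => simp
  | succ j ih =>
    have h1 : ρ ^ j ≤ ρ ^ (j + 1) := pow_le_pow_right₀ hρ (by omega)
    have h2 : (ρ - 1) * ρ ^ j ≤ (ρ - 1) * ρ ^ (j + 1) :=
      mul_le_mul_of_nonneg_left h1 (by linarith)
    have h3 : (j : ℝ) * ((ρ - 1) * ρ ^ j) ≤ j * ((ρ - 1) * ρ ^ (j + 1)) :=
      mul_le_mul_of_nonneg_left h2 (by positivity)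
    have h4 : ρ ^ (j + 1) - 1 = (ρ - 1) * ρ ^ j + (ρ ^ j - 1) := by ring
    push_cast
    linarith

theorem phi_add {ρ : ℝ} (hρ : 1 ≤ ρ) (h : ℕ) {c c' j J : ℕ} (hj : j ≤ J) (hc : c' ≤ c + j) :
    phi ρ h c' ≤ phi ρ h c + j * ((ρ - 1) * ρ ^ J) * (phi ρ h c + 1) := by
  unfold phi
  have h1 : ρ ^ (c' - h) ≤ ρ ^ (c - h) * ρ ^ j := by
    rw [← pow_add]
    exact pow_le_pow_right₀ hρ (by omega)
  have h2 := pow_sub_one_le hρ j
  have h3 : (j : ℝ) * ((ρ - 1) * ρ ^ j) ≤ j * ((ρ - 1) * ρ ^ J) :=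
    mul_le_mul_of_nonneg_left (mul_le_mul_of_nonneg_left (pow_le_pow_right₀ hρ hj)
      (by linarith)) (by positivity)
  have h4 : 0 ≤ ρ ^ (c - h) := by positivity
  have h5 := mul_le_mul_of_nonneg_left (h2.trans h3) h4
  nlinarith

variable {P L : Type} [DecidableEq P]

structure Game (g : Geo P L) where
  n : ℕ
  h : ℕ
  ρ : ℝ
  G : Finset L
  R : Finset P
  O : Finset (Seg L)
  H : Finset P
  hn : 0 < n
  hh : 0 < h
  hρ : 1 ≤ ρ
  hR : ∀ l ∈ G, ∀ l' ∈ G, ∀ i i', g.f l i = g.f l' i' → g.f l i ∉ R → l = l'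
  hO : ∀ l ∈ G, ∀ lo hi, g.f l lo ∈ R → g.f l hi ∈ R → (l, lo, hi) ∈ O

namespace Game

variable {g : Geo P L} (s : Game g)

def Alive (B : Finset P) (o : Seg L) : Prop :=
  ∃ lo hi, lo ≤ o.2.1 ∧ o.2.2 ≤ hi ∧ g.LF s.n B (o.1, lo, hi)

open Classical in
noncomputable def w1 (M B : Finset P) (o : Seg L) : ℝ :=
  if s.Alive B o then phi s.ρ s.h (g.cnt ((M \ s.H) ∩ s.R) o) else 0

noncomputable def w2 (M : Finset P) (o : Seg L) : ℝ := phi s.ρ s.h (g.cnt ((M \ s.H) \ s.R) o)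

noncomputable def Phi1 (M B : Finset P) : ℝ := ∑ o ∈ s.O, s.w1 M B o

open Classical in
noncomputable def val1 (M B : Finset P) (p : P) : ℝ :=
  ∑ o ∈ s.O.filter (fun o => g.On p o), s.w1 M B o

def Valid (B : Finset P) (F : Finset (Seg L)) : Prop :=
  (∀ o ∈ F, o.1 ∈ s.G ∧ g.LF s.n B o) ∧
  ∀ o ∈ F, ∀ o' ∈ F, o.1 = o'.1 → ∀ i, o.2.1 ≤ i → i ≤ o.2.2 → o'.2.1 ≤ i → i ≤ o'.2.2 → o = o'

def Bound (M B : Finset P) (K : ℝ) : Prop :=
  ∀ F, s.Valid B F → s.Phi1 M B + ∑ o ∈ F, s.w2 M o ≤ K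

def V (M B : Finset P) (v : ℝ) : Prop :=
  (∀ p ∈ s.R, p ∉ M → p ∉ B → s.val1 M B p ≤ v) ∧
  ∀ o : Seg L, o.1 ∈ s.G → g.LF s.n B o → s.w2 M o ≤ v

def GInv (k : ℕ) (M B : Finset P) (K : ℝ) : Prop :=
  ∃ v, 0 ≤ v ∧ s.V M B v ∧ s.Bound M B (K - k * v)

omit [DecidableEq P] in
theorem Alive.mono {B B' : Finset P} {o : Seg L} (h : s.Alive B' o) (hB : B ⊆ B') :
    s.Alive B o := by
  obtain ⟨lo, hi, h1, h2, h3⟩ := h
  exact ⟨lo, hi, h1, h2, h3.mono g hB⟩

theorem w1_nonneg (M B : Finset P) (o : Seg L) : 0 ≤ s.w1 M B o := by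
  unfold w1
  split_ifs
  · exact phi_nonneg s.hρ _ _
  · exact le_rfl

theorem w2_nonneg (M : Finset P) (o : Seg L) : 0 ≤ s.w2 M o := phi_nonneg s.hρ _ _

theorem w1_mono (M : Finset P) {B B' : Finset P} (hB : B ⊆ B') (o : Seg L) :
    s.w1 M B' o ≤ s.w1 M B o := by
  by_cases h : s.Alive B' o
  · simp only [w1, if_pos h, if_pos (h.mono s hB), le_refl]
  · have := s.w1_nonneg M B o
    simpa only [w1, if_neg h] using this

theorem Phi1_nonneg (M B : Finset P) : 0 ≤ s.Phi1 M B := sum_nonneg fun o _ => s.w1_nonneg M B o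

theorem Phi1_mono (M : Finset P) {B B' : Finset P} (hB : B ⊆ B') : s.Phi1 M B' ≤ s.Phi1 M B :=
  sum_le_sum fun o _ => s.w1_mono M hB o

theorem val1_mono (M : Finset P) {B B' : Finset P} (hB : B ⊆ B') (p : P) :
    s.val1 M B' p ≤ s.val1 M B p :=
  sum_le_sum fun o _ => s.w1_mono M hB o

omit [DecidableEq P] in
theorem Valid.mono {B B' : Finset P} {F : Finset (Seg L)} (h : s.Valid B' F) (hB : B ⊆ B') :
    s.Valid B F :=
  ⟨fun o ho => ⟨(h.1 o ho).1, (h.1 o ho).2.mono g hB⟩, h.2⟩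

theorem Bound.mono {M B B' : Finset P} {K K' : ℝ} (h : s.Bound M B K) (hB : B ⊆ B')
    (hK : K ≤ K') : s.Bound M B' K' := by
  intro F hF
  have h1 := h F (hF.mono s hB)
  have h2 := s.Phi1_mono M hB
  linarith

theorem V.mono {M B B' : Finset P} {v : ℝ} (h : s.V M B v) (hB : B ⊆ B') : s.V M B' v :=
  ⟨fun p hp h1 h2 => (s.val1_mono M hB p).trans (h.1 p hp h1 (fun hc => h2 (hB hc))),
    fun o h1 h2 => h.2 o h1 (h2.mono g hB)⟩

theorem GInv.mono {k : ℕ} {M B B' : Finset P} {K K' : ℝ} (h : s.GInv k M B K) (hB : B ⊆ B')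
    (hK : K ≤ K') : s.GInv k M B' K' := by
  obtain ⟨v, h0, h1, h2⟩ := h
  exact ⟨v, h0, h1.mono s hB, h2.mono s hB (by linarith)⟩

theorem init (k : ℕ) (B : Finset P) : s.GInv k s.H B 0 := by
  have h1 : ∀ o, s.w1 s.H B o = 0 := by
    intro o
    simp [w1, Geo.cnt_empty, phi_zero]
  have h2 : ∀ o, s.w2 s.H o = 0 := by
    intro o
    simp [w2, Geo.cnt_empty, phi_zero]
  refine ⟨0, le_rfl, ⟨fun p _ _ _ => ?_, fun o _ _ => (h2 o).le⟩, fun F _ => ?_⟩
  · simp [val1, h1]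
  · simp [Phi1, h1, h2]

theorem move1 {M B : Finset P} {K : ℝ} (hb : s.Bound M B K) (p : P) :
    s.Bound M (insert p B) (K - s.val1 M B p) := by
  classical
  intro F hF
  have h1 := hb F (hF.mono s (subset_insert _ _))
  have h2 := sum_filter_add_sum_filter_not s.O (fun o => g.On p o) (s.w1 M B)
  have h3 := sum_filter_add_sum_filter_not s.O (fun o => g.On p o) (s.w1 M (insert p B))
  have h4 : ∑ o ∈ s.O.filter (fun o => g.On p o), s.w1 M (insert p B) o = 0 := by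
    apply sum_eq_zero
    intro o ho
    obtain ⟨i, hi1, hi2, hi3⟩ := (mem_filter.mp ho).2
    have : ¬ s.Alive (insert p B) o := by
      rintro ⟨lo, hi, h1, h2, h3⟩
      exact h3.1 i (h1.trans hi1) (hi2.trans h2) (by simp [hi3])
    simp [w1, this]
  have h5 : ∑ o ∈ s.O.filter (fun o => ¬ g.On p o), s.w1 M (insert p B) o ≤
      ∑ o ∈ s.O.filter (fun o => ¬ g.On p o), s.w1 M B o :=
    sum_le_sum fun o _ => s.w1_mono M (subset_insert _ _) o
  unfold Phi1 at h1 ⊢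
  unfold val1
  linarith

theorem move2 {M B : Finset P} {K : ℝ} (hb : s.Bound M B K) (hw : g.NoWin s.n M B)
    (hd : Disjoint M B) (c : ℕ) (hc : 2 * s.n ≤ c * s.h) (o : Seg L) (ho : o.1 ∈ s.G)
    (hlf : g.LF s.n B o) :
    ∃ Z : Finset P, Disjoint M Z ∧ Z.card ≤ c + 2 ∧ s.Bound M (B ∪ Z) (K - s.w2 M o) := by
  classical
  obtain ⟨l, lo, hi⟩ := o
  have hn := s.hn
  have hlive : lo + s.n ≤ hi + 1 := hlf.2
  obtain ⟨a, ha1, ha2, ha3⟩ := seal_left s.n (fun i => g.f l i ∈ M) (g.noRun hw hd l) lo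
  obtain ⟨e, he1, he2, he3⟩ := seal_right s.n (fun i => g.f l i ∈ M) (g.noRun hw hd l) hi
  have hfree : g.Free B (l, a + 1, e - 1) := by
    intro i h1 h2
    simp only at h1 h2 ⊢
    by_cases h3 : i < lo
    · exact disjoint_left.mp hd (ha3 i (by omega) h3)
    by_cases h4 : hi < i
    · exact disjoint_left.mp hd (he3 i h4 (by omega))
    exact hlf.1 i (by simp only; omega) (by simp only; omega)
  have hT : (M \ s.H) \ s.R ⊆ M := sdiff_subset.trans sdiff_subset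
  let S : Finset P := ((Icc (a + 1) (e - 1)).filter
    (fun i => g.f l i ∈ (M \ s.H) \ s.R)).image (g.f l)
  have hS1 : S ⊆ M := by
    intro p hp
    obtain ⟨i, hi, rfl⟩ := mem_image.mp hp
    exact hT (mem_filter.mp hi).2
  have hS2 : S.card < s.n :=
    lt_of_le_of_lt (card_image_le.trans (g.cnt_mono hT (l, a + 1, e - 1))) (hw _ hfree)
  obtain ⟨Z, hZ1, hZ2, hZ3⟩ := g.shatter hw hd l s.h s.hh S hS1
  have hZc : Z.card ≤ c := Nat.le_of_mul_le_mul_right (by omega) s.hh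
  refine ⟨insert (g.f l a) (insert (g.f l e) Z), ?_, ?_, ?_⟩
  · rw [disjoint_insert_right, disjoint_insert_right]
    exact ⟨ha2, he2, hZ1⟩
  · have h1 := card_insert_le (g.f l a) (insert (g.f l e) Z)
    have h2 := card_insert_le (g.f l e) Z
    omega
  intro F hF
  let Meets : Seg L → Prop := fun o => o.1 = l ∧ ∃ i, o.2.1 ≤ i ∧ i ≤ o.2.2 ∧ lo ≤ i ∧ i ≤ hi
  have hnot : (l, lo, hi) ∉ F.filter (fun o => ¬ Meets o) := by
    intro hc
    exact (mem_filter.mp hc).2 ⟨rfl, lo, le_rfl, by simp only; omega, le_rfl, by omega⟩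
  have hval : s.Valid B (insert (l, lo, hi) (F.filter (fun o => ¬ Meets o))) := by
    constructor
    · intro o' ho'
      rcases mem_insert.mp ho' with rfl | h1
      · exact ⟨ho, hlf⟩
      · have := hF.1 o' (mem_filter.mp h1).1
        exact ⟨this.1, this.2.mono g subset_union_left⟩
    · intro o1 ho1 o2 ho2 he i h1 h2 h3 h4
      rcases mem_insert.mp ho1 with rfl | h5
      · rcases mem_insert.mp ho2 with rfl | h6
        · rfl
        · exact absurd ⟨he.symm, i, h3, h4, h1, h2⟩ (mem_filter.mp h6).2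
      · rcases mem_insert.mp ho2 with rfl | h6
        · exact absurd ⟨he, i, h1, h2, h3, h4⟩ (mem_filter.mp h5).2
        · exact hF.2 o1 (mem_filter.mp h5).1 o2 (mem_filter.mp h6).1 he i h1 h2 h3 h4
  have h1 := hb _ hval
  rw [sum_insert hnot] at h1
  have h2 := sum_filter_add_sum_filter_not F Meets (s.w2 M)
  have h3 : ∑ o ∈ F.filter Meets, s.w2 M o = 0 := by
    apply sum_eq_zero
    intro o' ho'
    obtain ⟨l', lo', hi'⟩ := o'
    obtain ⟨hoF, hl, i, h1, h2, h3, h4⟩ := mem_filter.mp ho'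
    simp only at hl h1 h2
    subst hl
    have hlf' := (hF.1 _ hoF).2
    have h5 : a < lo' := by
      by_contra hc
      exact hlf'.1 a (by simp only; omega) (by simp only; omega) (by simp)
    have h6 : hi' < e := by
      by_contra hc
      exact hlf'.1 e (by simp only; omega) (by simp only; omega) (by simp)
    have h7 := hZ3 lo' hi' (hlf'.mono g (fun p hp => by simp [hp]))
    apply phi_zero
    refine le_trans (card_le_card ?_) h7.le
    intro j hj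
    simp only [mem_filter, mem_Icc] at hj ⊢
    refine ⟨hj.1, mem_image_of_mem _ ?_⟩
    simp only [mem_filter, mem_Icc]
    exact ⟨⟨by omega, by omega⟩, hj.2⟩
  have h4 := s.Phi1_mono M (subset_union_left (s₁ := B)
    (s₂ := insert (g.f l a) (insert (g.f l e) Z)))
  linarith

theorem exists_max (M B : Finset P) : ∃ v, 0 ≤ v ∧ s.V M B v ∧
    (v = 0 ∨ (∃ p, p ∉ M ∧ s.val1 M B p = v ∧ p ∈ s.R ∧ p ∉ B) ∨
      ∃ o : Seg L, o.1 ∈ s.G ∧ g.LF s.n B o ∧ s.w2 M o = v) := by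
  let T : Set ℝ := {v | v = 0 ∨ (∃ p, p ∉ M ∧ s.val1 M B p = v ∧ p ∈ s.R ∧ p ∉ B) ∨
      ∃ o : Seg L, o.1 ∈ s.G ∧ g.LF s.n B o ∧ s.w2 M o = v}
  have hfin : T.Finite := by
    apply Set.Finite.subset (((Set.finite_singleton (0 : ℝ)).union
      ((finite_toSet s.R).image (s.val1 M B))).union
      ((finite_toSet (range (M.card + 1))).image (phi s.ρ s.h)))
    rintro v (h | ⟨p, -, h2, h3, -⟩ | ⟨o, -, -, h⟩)
    · exact Or.inl (Or.inl h)
    · exact Or.inl (Or.inr ⟨p, h3, h2⟩)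
    · refine Or.inr ⟨_, ?_, h⟩
      have := (g.cnt_le_card ((M \ s.H) \ s.R) o).trans
        (card_le_card (sdiff_subset.trans sdiff_subset))
      simp only [coe_range, Set.mem_Iio]
      omega
  obtain ⟨v, hv, hmax⟩ := Set.exists_max_image T id hfin ⟨0, Or.inl rfl⟩
  exact ⟨v, hmax 0 (Or.inl rfl),
    ⟨fun p h1 h2 h3 => hmax _ (Or.inr (Or.inl ⟨p, h2, rfl, h1, h3⟩)),
      fun o h1 h2 => hmax _ (Or.inr (Or.inr ⟨o, h1, h2, rfl⟩))⟩, hv⟩

theorem greedy {M B : Finset P} {K : ℝ} (hb : s.Bound M B K) (hw : g.NoWin s.n M B)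
    (hd : Disjoint M B) (c : ℕ) (hc : 2 * s.n ≤ c * s.h) (k : ℕ) :
    ∃ Z : Finset P, Disjoint M Z ∧ Z.card ≤ k * (c + 2) ∧ s.GInv k M (B ∪ Z) K := by
  induction k with
  | zero =>
    obtain ⟨v, h0, h1, -⟩ := s.exists_max M B
    refine ⟨∅, by simp, by simp, v, h0, by simpa using h1, by simpa using hb⟩
  | succ k ih =>
    obtain ⟨Z, hZ1, hZ2, v, hv0, hv1, hv2⟩ := ih
    obtain ⟨u, hu0, hu1, hu2⟩ := s.exists_max M (B ∪ Z)
    have hk : (0 : ℝ) ≤ k := by positivity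
    rcases hu2 with h | ⟨p, h1, h2, h3, h4⟩ | ⟨o, h1, h2, h3⟩
    · refine ⟨Z, hZ1, by nlinarith, u, hu0, hu1, hv2.mono s subset_rfl ?_⟩
      have := mul_nonneg hk hv0
      rw [h]
      linarith
    · have huv : u ≤ v := h2 ▸ hv1.1 p h3 h1 h4
      have hsub : insert p (B ∪ Z) ⊆ B ∪ insert p Z := by
        intro q hq
        simp only [mem_insert, mem_union] at hq ⊢
        tauto
      refine ⟨insert p Z, by rw [disjoint_insert_right]; exact ⟨h1, hZ1⟩, ?_, u, hu0,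
        hu1.mono s ((subset_insert _ _).trans hsub), (s.move1 hv2 p).mono s hsub ?_⟩
      · have := card_insert_le p Z
        nlinarith
      · have := mul_le_mul_of_nonneg_left huv hk
        rw [h2]
        push_cast
        linarith
    · have huv : u ≤ v := h3 ▸ hv1.2 o h1 h2
      obtain ⟨Z', hZ1', hZ2', hZ3'⟩ := s.move2 hv2 (hw.mono g subset_union_left)
        (disjoint_union_right.mpr ⟨hd, hZ1⟩) c hc o h1 h2
      refine ⟨Z ∪ Z', disjoint_union_right.mpr ⟨hZ1, hZ1'⟩, ?_, u, hu0,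
        hu1.mono s (union_subset_union_right subset_union_left),
        hZ3'.mono s (by rw [union_assoc]) ?_⟩
      · have := card_union_le Z Z'
        nlinarith
      · have := mul_le_mul_of_nonneg_left huv hk
        rw [h3]
        push_cast
        linarith

end Game

end Pool.Agent.Lib.MP_7018e1_co
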