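import Pool.Agent.Lib.MP_7018e1_co.Abstract

set_option autoImplicit false

namespace Pool.Agent.Lib.MP_7018e1_co

open Finset

namespace Par

variable {π : Par} {P L : Type} [DecidableEq P] {g : Geo P L}

def upd (H : ℕ → Finset P) (t : ℕ) (M : Finset P) : ℕ → Finset P :=
  fun s => if s ≤ t then H s else M

omit [DecidableEq P] in
theorem upd_le (H : ℕ → Finset P) {t s : ℕ} (M : Finset P) (h : s ≤ t) : upd H t M s = H s :=
  if_pos h

omit [DecidableEq P] in
theorem upd_succ (H : ℕ → Finset P) (t : ℕ) (M : Finset P) : upd H t M (t + 1) = M :=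
  if_neg (by omega)

theorem pot_le (π : Par) {t a : ℕ} (ha : a ∈ π.sch.Act t) :
    ((t + 1 - a : ℕ) : ℝ) * (((π.sch.X a ^ 3 : ℕ) : ℝ) * (π.NN a + 1)) + 1 ≤
      π.rho a ^ (π.J * (cC π.A π.q + 1)) := by
  obtain ⟨h1, h2, h3⟩ := π.sch.act_le t a ha
  have h4 := π.sch.X_up t (h1.trans h2)
  rw [← h3] at h4
  have hx := π.X_two a
  rw [pow_mul, π.rho_pow]
  unfold NN cC
  set x := π.sch.X a
  set u := 10 * (2 * (7 * π.q) * (π.A + 1))
  set c := 2 * (7 * π.q)
  have h5 : 1 ≤ x ^ u := Nat.one_le_pow _ _ (by omega)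
  have h6 : x ^ u + 1 ≤ x * x ^ u := by nlinarith
  have h7 : (t + 1 - a) * (x ^ 3 * (x ^ u + 1)) ≤ x ^ c * (x ^ 3 * (x * x ^ u)) :=
    Nat.mul_le_mul (by omega) (Nat.mul_le_mul_left _ h6)
  have h8 : x ^ c * (x ^ 3 * (x * x ^ u)) = x ^ (c + 4 + u) := by ring
  have h9 : 1 ≤ x ^ (c + 4 + u) := Nat.one_le_pow _ _ (by omega)
  have h10 : (t + 1 - a) * (x ^ 3 * (x ^ u + 1)) + 1 ≤ x ^ (c + 4 + u + 1) := by
    rw [pow_succ x (c + 4 + u)]
    have h11 : x ^ (c + 4 + u) * 2 ≤ x ^ (c + 4 + u) * x := Nat.mul_le_mul_left _ hx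
    omega
  exact_mod_cast h10

theorem Inv.extend {t : ℕ} {H : ℕ → Finset P} {B B' X : Finset P} (hI : π.Inv g t H B)
    (hX : X.card ≤ t ^ π.A) (hB : B ⊆ B') (hd : Disjoint (H t ∪ X) B')
    (hcap : π.t0 ≤ t → ∀ o, g.LF π.n B' o → g.cnt X o ≤ π.J)
    (hold : π.t0 ≤ t → ∀ o, g.LF π.n B' o → g.cnt (H (π.sch.old t)) o ≤ π.J)
    (hgame : ∀ a ∈ π.sch.Act t, (π.game g (H a) a).GInv (π.sch.X a ^ 3) (H t ∪ X) B'
      (((t + 1 - a : ℕ) : ℝ) * (((π.sch.X a ^ 3 : ℕ) : ℝ) * (π.NN a + 1)))) :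
    π.Inv g (t + 1) (upd H t (H t ∪ X)) B' := by
  refine ⟨?_, ?_, ?_, ?_, ?_, ?_, ?_⟩
  · intro s s' h1 h2
    by_cases h3 : s' ≤ t
    · rw [upd_le _ _ h3, upd_le _ _ (h1.trans h3)]
      exact hI.mono s s' h1 h3
    · obtain rfl : s' = t + 1 := by omega
      rw [upd_succ]
      by_cases h4 : s ≤ t
      · rw [upd_le _ _ h4]
        exact (hI.mono s t h4 le_rfl).trans subset_union_left
      · obtain rfl : s = t + 1 := by omega
        rw [upd_succ]
  · intro s hs
    by_cases h3 : s ≤ t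
    · rw [upd_le _ _ h3]
      exact hI.card s h3
    · obtain rfl : s = t + 1 := by omega
      rw [upd_succ]
      have h1 := card_union_le (H t) X
      have h2 := hI.card t le_rfl
      have h4 : t ^ π.A ≤ (t + 1) ^ π.A := Nat.pow_le_pow_left (by omega) _
      rw [pow_succ] at h2 ⊢
      nlinarith
  · rwa [upd_succ]
  · intro s h1 h2 o ho
    by_cases h3 : s + 1 ≤ t
    · rw [upd_le _ _ h3, upd_le _ _ (show s ≤ t by omega)]
      exact hI.cap s h1 h3 o (ho.mono g hB)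
    · obtain rfl : s = t := by omega
      rw [upd_succ, upd_le _ _ le_rfl]
      refine (g.cnt_mono ?_ o).trans (hcap h1 o ho)
      intro p hp
      simp only [mem_sdiff, mem_union] at hp
      tauto
  · intro s h1 a ha o h2 ho
    have h4 := (π.sch.act_le s a ha).2.1
    rw [upd_le _ _ (show a ≤ t by omega)] at h2 ⊢
    by_cases h3 : s + 1 ≤ t
    · rw [upd_le _ _ h3]
      exact hI.cnt s h3 a ha o h2 (ho.mono g hB)
    · obtain rfl : s = t := by omega
      rw [upd_succ]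
      exact (π.game g (H a) a).light (hgame a ha) (π.rho_gt a) _ (π.pot_le ha) o
        (g.mem_lines.mpr h2) ho
  · intro s h1 h2 o ho
    obtain rfl : s = t := by omega
    rw [upd_le _ _ (π.sch.old_le s h2).2]
    exact hold h2 o ho
  · intro a ha
    rcases π.sch.act_succ t a ha with rfl | h
    · rw [upd_succ]
      rw [Nat.sub_self, Nat.cast_zero, zero_mul]
      exact (π.game g (H t ∪ X) (t + 1)).init (π.sch.X (t + 1) ^ 3) B'
    · rw [upd_succ, upd_le _ _ (π.sch.act_le t a h).2.1]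
      exact hgame a h

theorem Inv.step {t : ℕ} {H : ℕ → Finset P} {B X : Finset P} (hI : π.Inv g t H B)
    (hXd : Disjoint X (H t ∪ B)) (hX : X.card ≤ t ^ π.A)
    (hXn : X.card + cE π.A π.q * π.J < π.n) (bt : ℕ) (hb : ∀ y, y ^ π.q ≤ t → y ≤ bt) :
    ∃ Z : Finset P, Disjoint (H t ∪ X) Z ∧ Z.card ≤ bt ∧
      ∀ B', B ∪ Z ⊆ B' → Disjoint (H t ∪ X) B' → π.Inv g (t + 1) (upd H t (H t ∪ X)) B' := by
  classical
  by_cases ht : π.t0 ≤ t
  swap
  · refine ⟨∅, by simp, by simp, fun B' h1 h2 => hI.extend hX (subset_union_left.trans h1) h2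
      (fun h => absurd h ht) (fun h => absurd h ht) (fun a ha => ?_)⟩
    have := π.sch.act_le t a ha
    unfold t0 at ht
    omega
  have hw := hI.noWin X hXn
  have hd : Disjoint (H t ∪ X) B :=
    disjoint_union_left.mpr ⟨hI.disj, (disjoint_union_right.mp hXd).2⟩
  have hJ := π.J_pos
  have hnJ := π.hnJ
  have hx1 := π.hx1
  have hx2 := π.hx2
  have hx3 := π.hx3
  have hxg := π.sch.X_ge t
  have hx := π.X_two t
  -- capping
  obtain ⟨G, hG1, hG2⟩ := g.exists_rich X π.J hJ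
  have hGc : G.card ≤ π.w ^ 2 := by
    have h1 : X.card ^ 2 ≤ (π.w * π.J) ^ 2 := Nat.pow_le_pow_left (by omega) 2
    rw [mul_pow] at h1
    exact Nat.le_of_mul_le_mul_right (hG1.trans h1) (by positivity)
  obtain ⟨Zc, hZc1, hZc2, hZc3⟩ := g.shatter_all hw hd G π.J hJ X subset_union_right (2 * π.w)
    (by rw [mul_assoc]; omega)
  have hcap : ∀ o, g.LF π.n (B ∪ Zc) o → g.cnt X o ≤ π.J := by
    intro o ho
    by_cases h : o.1 ∈ G
    · exact (hZc3 o h (ho.mono g subset_union_right)).le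
    · exact hG2 o h
  have hZc4 : Zc.card ≤ π.sch.X t ^ 2 := by
    rw [sq]
    exact hZc2.trans (Nat.mul_le_mul (by omega) (by omega))
  -- sealing old points
  obtain ⟨ho1, ho2⟩ := π.sch.old_le t ht
  have hold : ∃ Zo : Finset P, Disjoint (H t ∪ X) Zo ∧ Zo.card ≤ π.sch.X t ∧
      ∀ o, g.LF π.n Zo o → g.cnt (H (π.sch.old t)) o ≤ π.J := by
    have hc := hI.card _ ho2
    rcases π.sch.old_small t ht with h | ⟨y, hy1, hy2, hy3⟩
    · refine ⟨∅, by simp, by simp, fun o _ => (g.cnt_le_card _ o).trans (hc.trans ?_)⟩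
      rw [h]
      exact π.hJ
    · obtain ⟨Zo, h1, h2, h3⟩ := g.shatter_all hw hd (g.lines (H (π.sch.old t))) 1 one_pos
        (H (π.sch.old t)) ((hI.mono _ _ ho2 le_rfl).trans subset_union_left)
        (2 * (H (π.sch.old t)).card) (by omega)
      refine ⟨Zo, h1, ?_, fun o ho => ?_⟩
      · have h4 := g.card_lines (H (π.sch.old t))
        have h5 : (H (π.sch.old t)).card ≤ y ^ (7 * π.q * (π.A + 1)) := by
          rw [pow_mul, ← hy2]
          exact hc
        refine h2.trans (le_trans ?_ hy3)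
        calc _ ≤ (y ^ (7 * π.q * (π.A + 1))) ^ 2 * (y * y ^ (7 * π.q * (π.A + 1))) :=
              Nat.mul_le_mul (h4.trans (Nat.pow_le_pow_left h5 2)) (Nat.mul_le_mul hy1 h5)
          _ = _ := by ring
      · by_cases h : o.1 ∈ g.lines (H (π.sch.old t))
        · have := h3 o h ho
          omega
        · exact (g.cnt_le_one (fun hc => h (g.mem_lines.mpr hc))).trans hJ
  obtain ⟨Zo, hZo1, hZo2, hZo3⟩ := hold
  -- the games
  have hgame : ∀ a, ∃ Z : Finset P, a ∈ π.sch.Act t → (Disjoint (H t ∪ X) Z ∧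
      Z.card ≤ π.sch.X t ^ 4 ∧ (π.game g (H a) a).GInv (π.sch.X a ^ 3) (H t ∪ X) (B ∪ Zc ∪ Z)
      (((t + 1 - a : ℕ) : ℝ) * (((π.sch.X a ^ 3 : ℕ) : ℝ) * (π.NN a + 1)))) := by
    intro a
    by_cases ha : a ∈ π.sch.Act t
    swap
    · exact ⟨∅, fun h => absurd h ha⟩
    obtain ⟨h1, h2, h3⟩ := π.sch.act_le t a ha
    have hN : (π.game g (H a) a).O.card ≤ π.NN a := by
      refine (π.game_card g (H a) a).trans ?_
      have h4 := π.sch.X_up t ht
      rw [← h3] at h4
      have h5 : (H a).card ≤ (π.sch.X a ^ (2 * (7 * π.q))) ^ (π.A + 1) :=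
        (hI.card a h2).trans (Nat.pow_le_pow_left (by omega) _)
      refine (Nat.pow_le_pow_left h5 10).trans (le_of_eq ?_)
      unfold NN
      ring
    have h6 := (π.game g (H a) a).maker (hI.game a ha) (subset_union_left (s₂ := Zc)) hXd
      (show X.card ≤ π.n by omega) π.J hcap (π.NN a) hN (π.rho_k a)
    obtain ⟨Z, h7, h8, h9⟩ := (π.game g (H a) a).greedy h6 (hw.mono g subset_union_left)
      (disjoint_union_right.mpr ⟨hd, hZc1⟩) (2 * π.w)
      (show 2 * π.n ≤ 2 * π.w * π.J by rw [mul_assoc]; omega) (π.sch.X a ^ 3)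
    refine ⟨Z, fun _ => ⟨h7, ?_, h9.mono _ subset_rfl (le_of_eq ?_)⟩⟩
    · rw [h3] at h8
      rw [pow_succ _ 3]
      exact h8.trans (Nat.mul_le_mul_left _ (by omega))
    · rw [show t + 1 - a = (t - a) + 1 by omega]
      push_cast
      ring
  choose Z hZ using hgame
  refine ⟨Zc ∪ Zo ∪ (π.sch.Act t).biUnion Z, ?_, ?_, ?_⟩
  · rw [disjoint_union_right, disjoint_union_right, disjoint_biUnion_right]
    exact ⟨⟨hZc1, hZo1⟩, fun a ha => (hZ a ha).1⟩
  · refine le_trans ?_ (hb (π.sch.X t ^ 7) (by rw [← pow_mul]; exact π.sch.X_low t ht))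
    have h1 := card_union_le (Zc ∪ Zo) ((π.sch.Act t).biUnion Z)
    have h2 := card_union_le Zc Zo
    have h3 := card_biUnion_le_card_mul (π.sch.Act t) Z _ (fun a ha => (hZ a ha).2.1)
    have h4 := π.sch.act_card t
    set x := π.sch.X t
    have h5 : (π.sch.Act t).card * x ^ 4 ≤ x * x * x ^ 4 :=
      Nat.mul_le_mul_right _ (h4.trans (Nat.mul_le_mul_right _ (by omega)))
    have h6 : x * x * x ^ 4 = x ^ 6 := by ring
    have h7 : x ^ 7 = x * x ^ 6 := by ring
    have h8 : 2 * x ^ 6 ≤ x * x ^ 6 := Nat.mul_le_mul_right _ hx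
    have h9 : x ^ 2 + x ≤ x ^ 6 := by
      have e1 : x ^ 3 ≤ x ^ 6 := Nat.pow_le_pow_right (by omega) (by norm_num)
      have e2 : x ^ 3 = x * x ^ 2 := by ring
      have e3 : 2 * x ^ 2 ≤ x * x ^ 2 := Nat.mul_le_mul_right _ hx
      have e4 : x ≤ x ^ 2 := Nat.le_self_pow (by norm_num) x
      omega
    omega
  · intro B' h1 h2
    have e1 : B ∪ Zc ⊆ B' := by
      refine Subset.trans ?_ h1
      intro p hp
      simp only [mem_union] at hp ⊢
      tauto
    have e2 : Zo ⊆ B' := by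
      refine Subset.trans ?_ h1
      intro p hp
      simp only [mem_union]
      tauto
    refine hI.extend hX (subset_union_left.trans h1) h2 (fun _ o ho => hcap o (ho.mono g e1))
      (fun _ o ho => hZo3 o (ho.mono g e2)) (fun a ha => (hZ a ha).2.2.mono _ ?_ le_rfl)
    refine union_subset e1 (Subset.trans ?_ h1)
    exact ((subset_biUnion_of_mem Z ha).trans subset_union_right).trans subset_union_right

end Par

end Pool.Agent.Lib.MP_7018e1_co
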